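import Mathlib

/-!
# Ternary decics: the cone filtration of MP_646cd9_ag

Definitions following the problem file: the 21 monomials of degree five in the stated order,
Gram forms, the sets `T j` in complex projective space, their Zariski closures, and the cones.
-/

namespace Pool.Agent.NH61.Decic

open MvPolynomial

/-- The exponent vectors `α_0, …, α_20` of degree five in three variables, in decreasing order. -/
def expo : Fin 21 → Fin 3 → ℕ :=
  ![![5, 0, 0], ![4, 1, 0], ![3, 2, 0], ![2, 3, 0], ![1, 4, 0], ![0, 5, 0],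
    ![4, 0, 1], ![3, 1, 1], ![2, 2, 1], ![1, 3, 1], ![0, 4, 1],
    ![3, 0, 2], ![2, 1, 2], ![1, 2, 2], ![0, 3, 2],
    ![2, 0, 3], ![1, 1, 3], ![0, 2, 3],
    ![1, 0, 4], ![0, 1, 4],
    ![0, 0, 5]]

/-- The order on exponent vectors of the problem file: `α < β` iff `α₀+α₁ < β₀+β₁`, or
`α₀+α₁ = β₀+β₁` and `α₀ < β₀`, or `(α₀,α₁) = (β₀,β₁)` and `α₂ < β₂`. -/
def lt3 (α β : Fin 3 → ℕ) : Prop :=
  α 0 + α 1 < β 0 + β 1 ∨ (α 0 + α 1 = β 0 + β 1 ∧ α 0 < β 0) ∨
    ((α 0 = β 0 ∧ α 1 = β 1) ∧ α 2 < β 2)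

instance (α β : Fin 3 → ℕ) : Decidable (lt3 α β) := by unfold lt3; infer_instance

/-- The list `expo` is strictly decreasing for the order of the problem. -/
theorem expo_decreasing : ∀ i j : Fin 21, i < j → lt3 (expo j) (expo i) := by
  decide +kernel

/-- Each `expo i` has degree five. -/
theorem expo_sum : ∀ i : Fin 21, expo i 0 + expo i 1 + expo i 2 = 5 := by
  decide +kernel

/-- Every exponent vector of degree five is in the list. -/
theorem expo_surj (α : Fin 3 → ℕ) (h : α 0 + α 1 + α 2 = 5) : ∃ i, expo i = α := by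
  have key : ∀ a b : Fin 6, a.val + b.val ≤ 5 →
      ∃ i, expo i = ![a.val, b.val, 5 - a.val - b.val] := by decide +kernel
  obtain ⟨i, hi⟩ := key ⟨α 0, by omega⟩ ⟨α 1, by omega⟩ (by simp; omega)
  refine ⟨i, ?_⟩
  rw [hi]
  ext k
  fin_cases k
  · simp
  · simp
  · simp; omega

theorem expo_inj : Function.Injective expo := by
  intro i j h
  rcases lt_trichotomy i j with h1 | h1 | h1
  · have := expo_decreasing i j h1
    rw [h] at this; unfold lt3 at this; omega
  · exact h1
  · have := expo_decreasing j i h1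
    rw [h] at this; unfold lt3 at this; omega

/-- The value of the `i`-th monomial at a point `x` with coordinates in a commutative semiring. -/
def monoVal {R : Type*} [CommSemiring R] (i : Fin 21) (x : Fin 3 → R) : R :=
  x 0 ^ expo i 0 * x 1 ^ expo i 1 * x 2 ^ expo i 2

/-- The monomial `m_i = X^{α_i}` as a real polynomial in three variables. -/
noncomputable def mono (i : Fin 21) : MvPolynomial (Fin 3) ℝ := monoVal i X

/-- The quadratic form `q_A(z) = z A zᵀ`. -/
def qA (A : Matrix (Fin 21) (Fin 21) ℝ) (z : Fin 21 → ℝ) : ℝ := z ⬝ᵥ A.mulVec z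

/-- The form `f_A = q_A(m_0, …, m_20)`. -/
noncomputable def fA (A : Matrix (Fin 21) (Fin 21) ℝ) : MvPolynomial (Fin 3) ℝ :=
  ∑ k, ∑ l, C (A k l) * (mono k * mono l)

/-- Complex projective space of dimension 20. -/
abbrev P20 : Type := Projectivization ℂ (Fin 21 → ℂ)

/-- The cone `C_W`: real decics `f` having a Gram matrix `A` (symmetric, `f_A = f`) with
`q_A(z) ≥ 0` at all real points `[z]` of `W`. -/
def coneOf (W : Set P20) : Set (MvPolynomial (Fin 3) ℝ) :=
  {f | f.IsHomogeneous 10 ∧ ∃ A : Matrix (Fin 21) (Fin 21) ℝ, A.IsSymm ∧ fA A = f ∧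
    ∀ (z : Fin 21 → ℝ) (hz : (fun i => (z i : ℂ)) ≠ 0),
      Projectivization.mk ℂ (fun i => (z i : ℂ)) hz ∈ W → 0 ≤ qA A z}

/-- The set `T_j`: points `[z]` with a representative `z` such that
`(z_0, …, z_j) = (m_0(x), …, m_j(x))` for some `x ∈ ℂ³`. -/
def T (j : ℕ) : Set P20 :=
  {p | ∃ (z : Fin 21 → ℂ) (hz : z ≠ 0), p = Projectivization.mk ℂ z hz ∧
    ∃ x : Fin 3 → ℂ, ∀ i : Fin 21, i.val ≤ j → z i = monoVal i x}

/-- A homogeneous polynomial vanishes at a point of projective space. -/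
def VanishesAt (F : MvPolynomial (Fin 21) ℂ) (p : P20) : Prop :=
  ∀ (z : Fin 21 → ℂ) (hz : z ≠ 0), p = Projectivization.mk ℂ z hz → eval z F = 0

/-- The Zariski closure in projective space: the common zeros of all homogeneous polynomials
vanishing on the set. -/
def zariskiClosure (S : Set P20) : Set P20 :=
  {p | ∀ (d : ℕ) (F : MvPolynomial (Fin 21) ℂ), F.IsHomogeneous d →
    (∀ s ∈ S, VanishesAt F s) → VanishesAt F p}

/-- The index `j` with `H_i = T_j`: `H_0 = T_0`, `H_i = T_{i+1}` for `1 ≤ i ≤ 4`,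
`H_i = T_{i+2}` for `5 ≤ i`. -/
def idx (i : ℕ) : ℕ := if i = 0 then 0 else if i ≤ 4 then i + 1 else i + 2

/-- `V_i`, the Zariski closure of `H_i`. -/
def V (i : ℕ) : Set P20 := zariskiClosure (T (idx i))

/-- The cone `C_i = C_{V_i}`. -/
def cone (i : ℕ) : Set (MvPolynomial (Fin 3) ℝ) := coneOf (V i)

/-- The cone `Σ_{3,10}` of finite sums of squares of forms of degree five. -/
def sosCone : Set (MvPolynomial (Fin 3) ℝ) :=
  {f | ∃ (n : ℕ) (h : Fin n → MvPolynomial (Fin 3) ℝ),
    (∀ i, (h i).IsHomogeneous 5) ∧ f = ∑ i, h i ^ 2}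

end Pool.Agent.NH61.Decic
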