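import Pool.Agent.NH61.Decic.Defs

/-!
# Eliminating the free variables of a Gram matrix
-/

namespace Pool.Agent.NH61.Decic

open Polynomial

/-- The point `(r^{u0}, r^{u1}, r^{u2})`. -/
def curve (u : Fin 3 → ℕ) (r : ℝ) : Fin 3 → ℝ := fun k => r ^ u k

/-- The weight of the `i`-th monomial. -/
def wt (u : Fin 3 → ℕ) (i : Fin 21) : ℕ := u 0 * expo i 0 + u 1 * expo i 1 + u 2 * expo i 2

theorem monoVal_curve (u : Fin 3 → ℕ) (r : ℝ) (i : Fin 21) :
    monoVal i (curve u r) = r ^ wt u i := by
  unfold monoVal curve wt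
  simp only [← pow_mul, ← pow_add]

/-- Coefficients of a combination of distinct powers. -/
theorem coeff_comb (w : Fin 21 → ℕ) (hw : Function.Injective w) (c : Fin 21 → ℝ) (i : Fin 21) :
    (∑ k, Polynomial.C (c k) * X ^ w k : ℝ[X]).coeff (w i) = c i := by
  rw [finsetSum_coeff, Finset.sum_eq_single i]
  · simp
  · intro b _ hb
    rw [coeff_C_mul, coeff_X_pow, if_neg (fun h => hb (hw h).symm), mul_zero]
  · simp

theorem eval_comb (w : Fin 21 → ℕ) (c : Fin 21 → ℝ) (r : ℝ) :
    (∑ k, Polynomial.C (c k) * X ^ w k : ℝ[X]).eval r = ∑ k, c k * r ^ w k := by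
  rw [eval_finsetSum]
  simp

/-- Independence of the monomials. -/
theorem indep (c : Fin 21 → ℝ) (h : ∀ x : Fin 3 → ℝ, ∑ k, c k * monoVal k x = 0) : c = 0 := by
  have hinj : Function.Injective (wt ![0, 1, 6]) := by
    intro i j
    revert i j
    decide +kernel
  have hp : (∑ k, Polynomial.C (c k) * X ^ wt ![0, 1, 6] k : ℝ[X]) = 0 := by
    apply Polynomial.funext
    intro r
    rw [eval_comb, eval_zero]
    have := h (curve ![0, 1, 6] r)
    simpa only [monoVal_curve] using this
  funext i
  have := coeff_comb _ hinj c i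
  rw [hp, coeff_zero] at this
  simpa using this.symm

/-- Growth bound: a combination of distinct powers bounded by `K r^D`. -/
theorem growth (w : Fin 21 → ℕ) (hw : Function.Injective w) (c : Fin 21 → ℝ) (D : ℕ) (K : ℝ)
    (h : ∀ r : ℝ, 1 ≤ r → |∑ k, c k * r ^ w k| ≤ K * r ^ D) (i : Fin 21) (hi : D < w i) :
    c i = 0 := by
  set p : ℝ[X] := ∑ k, Polynomial.C (c k) * X ^ w k with hp
  have hlim : Filter.Tendsto (fun r => eval r p / eval r (X ^ (D + 1) : ℝ[X])) Filter.atTop
      (nhds 0) := by
    have h1 : Filter.Tendsto (fun r : ℝ => K / r) Filter.atTop (nhds 0) :=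
      tendsto_const_nhds.div_atTop Filter.tendsto_id
    apply squeeze_zero_norm' _ h1
    filter_upwards [Filter.eventually_ge_atTop 1] with r hr
    have hr0 : 0 < r := by linarith
    rw [Real.norm_eq_abs, abs_div, hp, eval_comb, eval_pow, eval_X, abs_of_pos (pow_pos hr0 _),
      div_le_div_iff₀ (pow_pos hr0 _) hr0]
    have := h r hr
    calc |∑ k, c k * r ^ w k| * r ≤ (K * r ^ D) * r :=
          mul_le_mul_of_nonneg_right this hr0.le
      _ = K * r ^ (D + 1) := by ring
  have hdeg : p.degree < (X ^ (D + 1) : ℝ[X]).degree := by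
    rwa [Polynomial.div_tendsto_atTop_zero_iff_degree_lt _ _ (pow_ne_zero _ X_ne_zero)] at hlim
  rw [degree_X_pow] at hdeg
  have := coeff_comb w hw c i
  rw [← hp] at this
  rw [← this]
  apply coeff_eq_zero_of_degree_lt
  refine lt_of_lt_of_le hdeg ?_
  exact_mod_cast hi

theorem qA_add_smul (B : Matrix (Fin 21) (Fin 21) ℝ) (hB : B.IsSymm) (w : Fin 21 → ℝ) (p : Fin 21)
    (u : ℝ) : qA B (w + u • Pi.single p 1) = qA B w + 2 * u * (B.mulVec w) p + u ^ 2 * B p p := by
  unfold qA
  have h1 : w ⬝ᵥ B.mulVec (Pi.single p 1) = (B.mulVec w) p := by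
    rw [Matrix.dotProduct_mulVec, dotProduct_single, mul_one]
    conv_lhs => rw [← hB]
    rw [Matrix.vecMul_transpose]
  rw [Matrix.mulVec_add, Matrix.mulVec_smul, add_dotProduct, dotProduct_add, dotProduct_add,
    dotProduct_smul, smul_dotProduct, smul_dotProduct, dotProduct_smul, h1, single_dotProduct,
    single_dotProduct, Matrix.mulVec_single_one]
  simp only [Matrix.col_apply, smul_eq_mul, one_mul]
  ring

/-- The real points over which nonnegativity is assumed. -/
def Pts (j : ℕ) : Set (Fin 21 → ℝ) :=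
  {w | ∃ x : Fin 3 → ℝ, ∀ i : Fin 21, i.val ≤ j → w i = monoVal i x}

theorem monoVal_zero (i : Fin 21) : monoVal i (0 : Fin 3 → ℝ) = 0 := by
  unfold monoVal
  have h := expo_sum i
  simp only [Pi.zero_apply, ← pow_add, h]
  norm_num

theorem full_mem_Pts (j : ℕ) (x : Fin 3 → ℝ) : (fun i => monoVal i x) ∈ Pts j :=
  ⟨x, fun _ _ => rfl⟩

theorem single_mem_Pts (j : ℕ) (a : Fin 21) (ha : j < a.val) :
    (Pi.single a 1 : Fin 21 → ℝ) ∈ Pts j := by
  refine ⟨0, fun i hi => ?_⟩
  rw [monoVal_zero, Pi.single_eq_of_ne]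
  rintro rfl
  omega

/-- A linear form vanishing on `Pts j` is zero. -/
theorem linear_zero (j : ℕ) (b : Fin 21 → ℝ) (h : ∀ w ∈ Pts j, b ⬝ᵥ w = 0) : b = 0 := by
  apply indep
  intro x
  have := h _ (full_mem_Pts j x)
  simpa [dotProduct] using this

/-- Elimination of the free variables. -/
theorem elim (j : ℕ) (A : Matrix (Fin 21) (Fin 21) ℝ) (hA : A.IsSymm)
    (hq : ∀ w ∈ Pts j, 0 ≤ qA A w) (n : ℕ) (hn : n ≤ 21) (hjn : j + 1 + n ≤ 21 ∨ n = 0) :
    ∃ (c : Fin 21 → Fin 21 → ℝ) (B : Matrix (Fin 21) (Fin 21) ℝ), B.IsSymm ∧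
      (∀ k : Fin 21, k.val < 21 - n → c k = 0) ∧
      (∀ a b : Fin 21, A a b = ∑ k, c k a * c k b + B a b) ∧
      (∀ a b : Fin 21, 21 - n ≤ a.val → B a b = 0) ∧
      ∀ w ∈ Pts j, 0 ≤ qA B w := by
  induction n with
  | zero =>
    refine ⟨fun _ => 0, A, hA, fun _ _ => rfl, by simp, ?_, hq⟩
    intro a b h
    omega
  | succ n ih =>
    obtain ⟨c, B, hB, hc0, hAB, hsupp, hpos⟩ := ih (by omega) (by omega)
    have hjn' : j + 1 + (n + 1) ≤ 21 := by omega
    set p : Fin 21 := ⟨20 - n, by omega⟩ with hp
    have hpval : p.val = 20 - n := rfl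
    have hjp : j < p.val := by omega
    have hmove : ∀ w ∈ Pts j, ∀ u : ℝ, w + u • Pi.single p 1 ∈ Pts j := by
      rintro w ⟨x, hx⟩ u
      refine ⟨x, fun i hi => ?_⟩
      have hne : i ≠ p := by rintro rfl; omega
      simp [Pi.single_eq_of_ne hne, hx i hi]
    have hquad : ∀ w ∈ Pts j, ∀ u : ℝ, 0 ≤ qA B w + 2 * u * (B.mulVec w) p + u ^ 2 * B p p := by
      intro w hw u
      rw [← qA_add_smul B hB]
      exact hpos _ (hmove w hw u)
    have hpp : 0 ≤ B p p := by
      have h1 := hpos _ (single_mem_Pts j p hjp)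
      unfold qA at h1
      rw [Matrix.mulVec_single_one, single_dotProduct] at h1
      simpa using h1
    have hrow : B p p = 0 → ∀ a, B p a = 0 := by
      intro h0
      have : (fun a => B p a) = 0 := by
        apply linear_zero j
        intro w hw
        have hlin : ∀ u : ℝ, 0 ≤ qA B w + 2 * u * (B.mulVec w) p := by
          intro u
          have := hquad w hw u
          rw [h0] at this
          linarith
        have : (B.mulVec w) p = 0 := by
          by_contra hne
          have := hlin (-(qA B w + 1) / (2 * (B.mulVec w) p))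
          have h3 : 2 * (-(qA B w + 1) / (2 * (B.mulVec w) p)) * (B.mulVec w) p
              = -(qA B w + 1) := by field_simp
          rw [h3] at this
          linarith
        exact this
      intro a
      exact congrFun this a
    -- new data
    refine ⟨fun k => if k = p then (fun a => B p a / Real.sqrt (B p p)) else c k,
      Matrix.of fun a b => B a b - B p a * B p b / B p p, ?_, ?_, ?_, ?_, ?_⟩
    · apply Matrix.IsSymm.ext
      intro a b
      simp only [Matrix.of_apply]
      rw [hB.apply a b, mul_comm (B p b)]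
    · intro k hk
      have hne : k ≠ p := by rintro rfl; omega
      simp only [if_neg hne]
      exact hc0 k (by omega)
    · intro a b
      rw [hAB a b]
      have hcp : c p = 0 := hc0 p (by omega)
      have h1 : ∑ k, (if k = p then (fun a => B p a / Real.sqrt (B p p)) else c k) a *
          (if k = p then (fun a => B p a / Real.sqrt (B p p)) else c k) b
          = ∑ k, c k a * c k b + B p a * B p b / B p p := by
        rw [← Finset.add_sum_erase _ _ (Finset.mem_univ p),
          ← Finset.add_sum_erase _ (fun k => c k a * c k b) (Finset.mem_univ p)]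
        simp only [if_true, hcp, Pi.zero_apply, mul_zero, zero_add]
        have h2 : B p a / Real.sqrt (B p p) * (B p b / Real.sqrt (B p p))
            = B p a * B p b / B p p := by
          rw [div_mul_div_comm, Real.mul_self_sqrt hpp]
        rw [h2, add_comm]
        congr 1
        apply Finset.sum_congr rfl
        intro k hk
        rw [if_neg (Finset.ne_of_mem_erase hk)]
      rw [h1, Matrix.of_apply]
      ring
    · intro a b ha
      rw [Matrix.of_apply]
      by_cases hap : a = p
      · subst hap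
        by_cases h0 : B p p = 0
        · simp [hrow h0]
        · field_simp
          ring
      · have ha' : 21 - n ≤ a.val := by
          have : a.val ≠ p.val := fun h => hap (Fin.ext h)
          omega
        have hpa : B p a = 0 := (hB.apply a p).trans (hsupp a p ha')
        rw [hsupp a b ha', hpa]
        simp
    · intro w hw
      have hkey : qA (Matrix.of fun a b => B a b - B p a * B p b / B p p) w
          = qA B w - ((B.mulVec w) p) ^ 2 / B p p := by
        unfold qA
        have : (Matrix.of fun a b => B a b - B p a * B p b / B p p)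
            = B - (1 / B p p) • Matrix.vecMulVec (B p) (B p) := by
          ext a b
          simp only [Matrix.of_apply, Matrix.sub_apply, Matrix.smul_apply, Matrix.vecMulVec_apply,
            smul_eq_mul]
          ring
        rw [this, Matrix.sub_mulVec, Matrix.smul_mulVec, dotProduct_sub, dotProduct_smul,
          Matrix.vecMulVec_mulVec]
        have h4 : B p ⬝ᵥ w = (B.mulVec w) p := rfl
        rw [h4]
        simp only [smul_eq_mul]
        have h5 : (w ⬝ᵥ MulOpposite.op ((B.mulVec w) p) • B p) = (B.mulVec w) p * (B.mulVec w) p := by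
          rw [dotProduct_comm]
          have : (MulOpposite.op ((B.mulVec w) p) • B p) = ((B.mulVec w) p) • B p := by
            ext a; simp [mul_comm]
          rw [this, smul_dotProduct, h4]
          rfl
        rw [h5]
        ring
      rw [hkey]
      by_cases h0 : B p p = 0
      · rw [h0, div_zero, sub_zero]
        exact hpos w hw
      · have := hquad w hw (-(B.mulVec w) p / B p p)
        have h6 : qA B w + 2 * (-(B.mulVec w) p / B p p) * (B.mulVec w) p
            + (-(B.mulVec w) p / B p p) ^ 2 * B p p = qA B w - ((B.mulVec w) p) ^ 2 / B p p := by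
          field_simp
          ring
        rw [h6] at this
        exact this

/-- Final form of the elimination. -/
theorem elim' (j : ℕ) (hj : j ≤ 20) (A : Matrix (Fin 21) (Fin 21) ℝ) (hA : A.IsSymm)
    (hq : ∀ w ∈ Pts j, 0 ≤ qA A w) :
    ∃ (c : Fin 21 → Fin 21 → ℝ) (B : Matrix (Fin 21) (Fin 21) ℝ), B.IsSymm ∧
      (∀ a b : Fin 21, A a b = ∑ k, c k a * c k b + B a b) ∧
      (∀ a b : Fin 21, j < a.val → B a b = 0) ∧
      ∀ x : Fin 3 → ℝ, 0 ≤ qA B (fun i => monoVal i x) := by
  obtain ⟨c, B, hB, _, h1, h2, h3⟩ := elim j A hA hq (20 - j) (by omega) (by omega)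
  refine ⟨c, B, hB, h1, ?_, fun x => h3 _ (full_mem_Pts j x)⟩
  intro a b hab
  exact h2 a b (by omega)

end Pool.Agent.NH61.Decic
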