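import Pool.Agent.NH61.Decic.Sos

/-!
# The cone filtration: equality up to index 8, strictness from index 8 on
-/

namespace Pool.Agent.NH61.Decic

open MvPolynomial

/-- Exponent vector as a finitely supported function. -/
noncomputable def expoF (k : Fin 21) : Fin 3 →₀ ℕ := Finsupp.equivFunOnFinite.symm (expo k)

theorem mono_eq (k : Fin 21) : mono k = monomial (expoF k) 1 := by
  unfold mono monoVal
  rw [monomial_eq, C_1, one_mul, Finsupp.prod_fintype _ _ (by intro i; simp),
    Fin.prod_univ_three]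
  rfl

theorem expoF_inj : Function.Injective expoF := by
  intro a b h
  apply expo_inj
  exact Finsupp.equivFunOnFinite.symm.injective h

theorem hom5_expand (h : MvPolynomial (Fin 3) ℝ) (hh : h.IsHomogeneous 5) :
    h = ∑ k, C (coeff (expoF k) h) * mono k := by
  ext m
  rw [coeff_sum]
  simp only [coeff_C_mul, mono_eq, coeff_monomial]
  by_cases hm : m.degree = 5
  · have hs : m 0 + m 1 + m 2 = 5 := by
      rw [← hm, Finsupp.degree_eq_sum, Fin.sum_univ_three]
    obtain ⟨k, hk⟩ := expo_surj m hs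
    have hk' : expoF k = m := by
      unfold expoF
      rw [hk]
      ext i
      simp
    rw [Finset.sum_eq_single k]
    · rw [if_pos hk', mul_one, hk']
    · intro b _ hb
      rw [if_neg, mul_zero]
      intro h'
      apply hb
      apply expoF_inj
      rw [h', hk']
    · simp
  · rw [hh.coeff_eq_zero hm]
    symm
    apply Finset.sum_eq_zero
    intro k _
    rw [if_neg, mul_zero]
    intro h'
    apply hm
    rw [← h', Finsupp.degree_eq_sum, Fin.sum_univ_three]
    exact expo_sum k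

theorem qA_gram {n : ℕ} (c : Fin n → Fin 21 → ℝ) (z : Fin 21 → ℝ) :
    qA (Matrix.of fun a b => ∑ i, c i a * c i b) z = ∑ i, (∑ a, c i a * z a) ^ 2 := by
  unfold qA
  simp only [dotProduct, Matrix.mulVec, Matrix.of_apply, Finset.mul_sum, Finset.sum_mul]
  rw [Finset.sum_congr rfl (fun a _ => Finset.sum_comm), Finset.sum_comm]
  apply Finset.sum_congr rfl
  intro k _
  rw [sq, Finset.sum_mul_sum]
  apply Finset.sum_congr rfl
  intro a _
  apply Finset.sum_congr rfl
  intro b _
  ring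

theorem T_zero (p : P20) : p ∈ T 0 := by
  induction p using Projectivization.ind with
  | h z hz =>
    by_cases h0 : z 0 = 0
    · refine ⟨z, hz, rfl, 0, ?_⟩
      intro i hi
      have : i = 0 := Fin.ext (by simpa using hi)
      subst this
      rw [h0]
      simp [monoVal, expo]
    · refine ⟨(z 0)⁻¹ • z, smul_ne_zero (inv_ne_zero h0) hz, ?_, ![1, 0, 0], ?_⟩
      · rw [Projectivization.mk_eq_mk_iff]
        refine ⟨Units.mk0 (z 0) h0, ?_⟩
        rw [Units.smul_def, Units.val_mk0, smul_smul, mul_inv_cancel₀ h0, one_smul]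
      · intro i hi
        have : i = 0 := Fin.ext (by simpa using hi)
        subst this
        simp [monoVal, expo, h0]

theorem T_anti {j k : ℕ} (h : j ≤ k) : T k ⊆ T j := by
  rintro p ⟨z, hz, hp, x, hx⟩
  exact ⟨z, hz, hp, x, fun i hi => hx i (hi.trans h)⟩

theorem subset_closure' (S : Set P20) : S ⊆ zariskiClosure S :=
  fun p hp _ _ _ hS => hS p hp

theorem closure_mono' {S S' : Set P20} (h : S ⊆ S') : zariskiClosure S ⊆ zariskiClosure S' :=
  fun _ hp d F hF hS => hp d F hF (fun s hs => hS s (h hs))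

theorem idx_mono {i j : ℕ} (h : i ≤ j) : idx i ≤ idx j := by
  unfold idx
  split_ifs <;> omega

theorem cone_mono {i j : ℕ} (h : i ≤ j) : cone i ⊆ cone j := by
  rintro f ⟨hf, A, hA, hfA, hq⟩
  exact ⟨hf, A, hA, hfA, fun z hz hm => hq z hz (closure_mono' (T_anti (idx_mono h)) hm)⟩

theorem qA_zero (A : Matrix (Fin 21) (Fin 21) ℝ) : qA A 0 = 0 := by simp [qA]

/-- Nonnegativity on the real points of the closure implies nonnegativity on `Pts`. -/
theorem pts_of_closure (A : Matrix (Fin 21) (Fin 21) ℝ) (j : ℕ)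
    (hq : ∀ (z : Fin 21 → ℝ) (hz : (fun i => (z i : ℂ)) ≠ 0),
      Projectivization.mk ℂ (fun i => (z i : ℂ)) hz ∈ zariskiClosure (T j) → 0 ≤ qA A z) :
    ∀ w ∈ Pts j, 0 ≤ qA A w := by
  rintro w ⟨x, hx⟩
  by_cases h0 : (fun i => (w i : ℂ)) = 0
  · have : w = 0 := by
      funext i
      have := congrFun h0 i
      simpa using this
    rw [this, qA_zero]
  · apply hq w h0
    apply subset_closure'
    refine ⟨_, h0, rfl, fun k => (x k : ℂ), ?_⟩
    intro i hi
    rw [hx i hi]
    unfold monoVal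
    push_cast
    rfl

theorem sosCone_subset : sosCone ⊆ cone 0 := by
  rintro f ⟨n, h, hh, rfl⟩
  have hexp : ∀ i, h i = ∑ k, C (coeff (expoF k) (h i)) * mono k := fun i => hom5_expand _ (hh i)
  set c : Fin n → Fin 21 → ℝ := fun i k => coeff (expoF k) (h i) with hc
  have hf : fA (Matrix.of fun a b => ∑ i, c i a * c i b) = ∑ i, h i ^ 2 := by
    apply MvPolynomial.funext
    intro x
    rw [eval_fA]
    unfold gq
    rw [qA_gram, map_sum]
    apply Finset.sum_congr rfl
    intro i _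
    rw [map_pow]
    congr 1
    conv_rhs => rw [hexp i]
    rw [eval_comb_mono]
  refine ⟨?_, Matrix.of fun a b => ∑ i, c i a * c i b, ?_, hf, ?_⟩
  · rw [← hf]
    exact fA_homog _
  · apply Matrix.IsSymm.ext
    intro a b
    simp only [Matrix.of_apply]
    exact Finset.sum_congr rfl (fun i _ => mul_comm _ _)
  · intro z _ _
    rw [qA_gram]
    exact Finset.sum_nonneg (fun i _ => sq_nonneg _)

theorem cone_eight_subset : cone 8 ⊆ sosCone := by
  rintro f ⟨_, A, hA, rfl, hq⟩
  exact fA_mem_sosCone A hA (pts_of_closure A 10 hq)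

theorem cone_eq_sosCone (i : ℕ) (hi : i ≤ 8) : cone i = sosCone :=
  Set.Subset.antisymm ((cone_mono hi).trans cone_eight_subset)
    (sosCone_subset.trans (cone_mono (Nat.zero_le i)))

/-- The Gram matrix of the Motzkin type form. -/
noncomputable def motGram (v p q c : Fin 21) : Matrix (Fin 21) (Fin 21) ℝ :=
  Matrix.diagonal fun k => (if k = v then 1 else 0) + (if k = p then 1 else 0) +
    (if k = q then 1 else 0) - 3 * (if k = c then 1 else 0)

theorem qA_motGram (v p q c : Fin 21) (z : Fin 21 → ℝ) :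
    qA (motGram v p q c) z = z v ^ 2 + z p ^ 2 + z q ^ 2 - 3 * z c ^ 2 := by
  unfold qA motGram
  simp only [dotProduct, Matrix.mulVec_diagonal]
  have : ∀ k, z k * (((if k = v then 1 else 0) + (if k = p then 1 else 0) +
      (if k = q then 1 else 0) - 3 * (if k = c then 1 else 0)) * z k)
      = (if k = v then z k ^ 2 else 0) + (if k = p then z k ^ 2 else 0) +
      (if k = q then z k ^ 2 else 0) - 3 * (if k = c then z k ^ 2 else 0) := by
    intro k
    split_ifs <;> ring
  simp only [this, Finset.sum_sub_distrib, Finset.sum_add_distrib, ← Finset.mul_sum]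
  simp

theorem motGram_symm (v p q c : Fin 21) : (motGram v p q c).IsSymm :=
  Matrix.diagonal_transpose _

theorem amgm (a b c d : ℝ) (h : a * b * c = d ^ 3) : 0 ≤ a ^ 2 + b ^ 2 + c ^ 2 - 3 * d ^ 2 := by
  by_contra hneg
  push Not at hneg
  have h1 : 27 * (a ^ 2 * b ^ 2 * c ^ 2) ≤ (a ^ 2 + b ^ 2 + c ^ 2) ^ 3 := by
    set A := a ^ 2
    set B := b ^ 2
    set C := c ^ 2
    have hA : 0 ≤ A := sq_nonneg a
    have hB : 0 ≤ B := sq_nonneg b
    have hC : 0 ≤ C := sq_nonneg c
    nlinarith [mul_nonneg hA (sq_nonneg (B - C)), mul_nonneg hB (sq_nonneg (A - C)),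
      mul_nonneg hC (sq_nonneg (A - B)), mul_nonneg hA (sq_nonneg (A - B)),
      mul_nonneg hA (sq_nonneg (A - C)), mul_nonneg hB (sq_nonneg (B - C)),
      mul_nonneg hB (sq_nonneg (B - A)), mul_nonneg hC (sq_nonneg (C - A)),
      mul_nonneg hC (sq_nonneg (C - B)), mul_nonneg hA hB, mul_nonneg hB hC, mul_nonneg hA hC]
  have h2 : a ^ 2 * b ^ 2 * c ^ 2 = (d ^ 2) ^ 3 := by
    calc a ^ 2 * b ^ 2 * c ^ 2 = (a * b * c) ^ 2 := by ring
      _ = (d ^ 2) ^ 3 := by rw [h]; ring
  have h3 : (a ^ 2 + b ^ 2 + c ^ 2) ^ 3 < (3 * d ^ 2) ^ 3 :=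
    pow_lt_pow_left₀ (by linarith) (by positivity) (by norm_num)
  rw [h2] at h1
  have h4 : (3 * d ^ 2) ^ 3 = 27 * (d ^ 2) ^ 3 := by ring
  linarith

theorem mot_mem_next (v p q c : Fin 21) (j : ℕ) (hj : v.val ≤ j ∧ p.val ≤ j ∧ q.val ≤ j ∧ c.val ≤ j)
    (hrel : ∀ t, expo v t + expo p t + expo q t = 3 * expo c t) :
    fA (motGram v p q c) ∈ coneOf (zariskiClosure (T j)) := by
  refine ⟨fA_homog _, _, motGram_symm v p q c, rfl, ?_⟩
  intro z hz hmem
  rw [qA_motGram]
  apply amgm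
  set F : MvPolynomial (Fin 21) ℂ := X v * X p * X q - X c ^ 3 with hF
  have hFh : F.IsHomogeneous 3 := by
    apply IsHomogeneous.sub
    · exact ((isHomogeneous_X ℂ v).mul (isHomogeneous_X ℂ p)).mul (isHomogeneous_X ℂ q)
    · exact isHomogeneous_X_pow c 3
  have hvan := hmem 3 F hFh (by
    rintro s ⟨z0, hz0, hs, x, hx⟩ z1 hz1 hs1
    rw [hs, Projectivization.mk_eq_mk_iff] at hs1
    obtain ⟨a, ha⟩ := hs1
    have hz0v := hx v hj.1
    have hz0p := hx p hj.2.1
    have hz0q := hx q hj.2.2.1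
    have hz0c := hx c hj.2.2.2
    have hrelx : z0 v * z0 p * z0 q = z0 c ^ 3 := by
      rw [hz0v, hz0p, hz0q, hz0c]
      unfold monoVal
      have e0 := hrel 0
      have e1 := hrel 1
      have e2 := hrel 2
      calc x 0 ^ expo v 0 * x 1 ^ expo v 1 * x 2 ^ expo v 2 *
            (x 0 ^ expo p 0 * x 1 ^ expo p 1 * x 2 ^ expo p 2) *
            (x 0 ^ expo q 0 * x 1 ^ expo q 1 * x 2 ^ expo q 2)
          = x 0 ^ (expo v 0 + expo p 0 + expo q 0) * x 1 ^ (expo v 1 + expo p 1 + expo q 1) *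
            x 2 ^ (expo v 2 + expo p 2 + expo q 2) := by
            simp only [pow_add]; ring
        _ = _ := by rw [e0, e1, e2]; ring
    have hz1 : ∀ i, z1 i = (↑a⁻¹ : ℂ) * z0 i := by
      intro i
      have : z0 i = (a : ℂ) * z1 i := by
        rw [← ha]; rfl
      rw [this, ← mul_assoc, Units.inv_mul, one_mul]
    simp only [hF, map_sub, map_mul, map_pow, eval_X, hz1]
    linear_combination (↑a⁻¹ : ℂ) ^ 3 * hrelx)
  have := hvan _ hz rfl
  simp only [hF, map_sub, map_mul, map_pow, eval_X] at this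
  have h3 : ((z v * z p * z q : ℝ) : ℂ) = ((z c ^ 3 : ℝ) : ℂ) := by
    push_cast
    linear_combination this
  exact_mod_cast h3

theorem strict_step (i : ℕ) (v p q c : Fin 21) (ws : List (Fin 3 → ℕ)) (u' : Fin 3 → ℕ)
    (hi : idx (i + 1) = v.val) (hi' : idx i = v.val - 1)
    (hv0 : 0 < v.val)
    (hlt : p ≠ v ∧ q ≠ v ∧ c ≠ v ∧ p ≠ q ∧ p ≠ c ∧ q ≠ c)
    (hle : p.val ≤ v.val ∧ q.val ≤ v.val ∧ c.val ≤ v.val)
    (hrel : ∀ t, expo v t + expo p t + expo q t = 3 * expo c t)
    (hw : ∀ u ∈ ws, Function.Injective (wt u))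
    (hsep : ∀ i, i ≠ v → i ≠ p → i ≠ q → i ≠ c →
      ∃ u ∈ ws, wt u v < wt u i ∧ wt u p < wt u i ∧ wt u q < wt u i)
    (hcc : ∀ a b, (a = v ∨ a = p ∨ a = q ∨ a = c) → (b = v ∨ b = p ∨ b = q ∨ b = c) →
      Mid a b c → a = c ∧ b = c)
    (hvv : ∀ k l, k < v → l < v → ¬ Mid k l v)
    (hu' : wt u' p < wt u' c ∧ wt u' q < wt u' c) : cone i ⊂ cone (i + 1) := by
  refine ⟨cone_mono (Nat.le_succ i), fun hsub => ?_⟩
  have hmem : fA (motGram v p q c) ∈ cone (i + 1) := by
    unfold cone V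
    rw [hi]
    exact mot_mem_next v p q c v.val ⟨le_refl _, hle.1, hle.2.1, hle.2.2⟩ hrel
  obtain ⟨_, A, hA, hfA, hq⟩ := hsub hmem
  unfold V at hq
  rw [hi'] at hq
  refine not_gram v p q c ws u' hv0 hlt hw hsep hcc hvv hu' A hA (pts_of_closure A _ hq) ?_
  intro x
  rw [← eval_fA, hfA, eval_fA]
  unfold gq mot
  rw [qA_motGram]

theorem inj_of_check (u : Fin 3 → ℕ) (h : ∀ i j : Fin 21, wt u i = wt u j → i = j) :
    Function.Injective (wt u) := fun i j hij => h i j hij

end Pool.Agent.NH61.Decic
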