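import Mathlib

/-!
# Positive semidefinite `2 × 2` matrix polynomials in one variable are sums of squares

An elementary proof by removing linear factors one at a time.
-/

namespace Pool.Agent.NH61.Decic

open Polynomial

/-- Coefficientwise conjugation of complex polynomials. -/
noncomputable def cj : ℂ[X] →+* ℂ[X] := Polynomial.mapRingHom (starRingEnd ℂ)

theorem cj_cj (p : ℂ[X]) : cj (cj p) = p := by
  unfold cj
  simp only [coe_mapRingHom, Polynomial.map_map]
  convert Polynomial.map_id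
  ext z
  simp

theorem cj_C (z : ℂ) : cj (C z) = C (starRingEnd ℂ z) := by
  simp [cj]

theorem cj_X : cj X = X := by simp [cj]

theorem cj_map (p : ℝ[X]) : cj (p.map (algebraMap ℝ ℂ)) = p.map (algebraMap ℝ ℂ) := by
  unfold cj
  simp only [coe_mapRingHom, Polynomial.map_map]
  congr 1
  ext z
  simp

theorem exists_unit_vec (p0 p1 q0 q1 : ℂ) (h : p0 * q1 = p1 * q0) :
    ∃ u1 u2 : ℂ, u1 * (starRingEnd ℂ u1) + u2 * (starRingEnd ℂ u2) = 1 ∧
      u1 * p0 + u2 * q0 = 0 ∧ u1 * p1 + u2 * q1 = 0 := by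
  have hmain : ∃ u1 u2 : ℂ, (u1 ≠ 0 ∨ u2 ≠ 0) ∧ u1 * p0 + u2 * q0 = 0 ∧ u1 * p1 + u2 * q1 = 0 := by
    by_cases h0 : p0 = 0 ∧ q0 = 0
    · obtain ⟨hp, hq⟩ := h0
      by_cases h1 : p1 = 0 ∧ q1 = 0
      · exact ⟨1, 0, Or.inl one_ne_zero, by simp [hp], by simp [h1.1]⟩
      · refine ⟨q1, -p1, ?_, by simp [hp, hq], by ring⟩
        by_contra hcon
        push Not at hcon
        apply h1
        exact ⟨by simpa using hcon.2, hcon.1⟩
    · refine ⟨q0, -p0, ?_, by ring, by linear_combination -h⟩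
      by_contra hcon
      push Not at hcon
      apply h0
      exact ⟨by simpa using hcon.2, hcon.1⟩
  obtain ⟨u1, u2, hne, e0, e1⟩ := hmain
  set s : ℝ := Complex.normSq u1 + Complex.normSq u2 with hs
  have hspos : 0 < s := by
    rcases hne with h1 | h1
    · have := Complex.normSq_pos.mpr h1
      have := Complex.normSq_nonneg u2
      linarith
    · have := Complex.normSq_pos.mpr h1
      have := Complex.normSq_nonneg u1
      linarith
  have hsq : ((Real.sqrt s : ℝ) : ℂ) * ((Real.sqrt s : ℝ) : ℂ) = (s : ℂ) := by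
    rw [← Complex.ofReal_mul, Real.mul_self_sqrt hspos.le]
  have hsn : ((Real.sqrt s : ℝ) : ℂ) ≠ 0 := by
    rw [Complex.ofReal_ne_zero]
    exact (Real.sqrt_pos.mpr hspos).ne'
  refine ⟨u1 / (Real.sqrt s : ℝ), u2 / (Real.sqrt s : ℝ), ?_, ?_, ?_⟩
  · rw [map_div₀, map_div₀, Complex.conj_ofReal, div_mul_div_comm, div_mul_div_comm, hsq,
      ← add_div, Complex.mul_conj, Complex.mul_conj, ← Complex.ofReal_add, ← hs]
    apply div_self
    rw [Complex.ofReal_ne_zero]
    exact hspos.ne'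
  · rw [div_mul_eq_mul_div, div_mul_eq_mul_div, ← add_div, e0, zero_div]
  · rw [div_mul_eq_mul_div, div_mul_eq_mul_div, ← add_div, e1, zero_div]

/-- One step: divide by a linear factor. -/
theorem step (z : ℂ) (G : ℂ[X]) (f0 f1 f2 P0 P1 Q0 Q1 : ℂ[X])
    (hD : P0.eval z * Q1.eval z = P1.eval z * Q0.eval z)
    (e0 : ((X - C z) * G) * cj ((X - C z) * G) * f0 = P0 * cj P0 + Q0 * cj Q0)
    (e1 : ((X - C z) * G) * cj ((X - C z) * G) * f1
      = P0 * cj P1 + P1 * cj P0 + (Q0 * cj Q1 + Q1 * cj Q0))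
    (e2 : ((X - C z) * G) * cj ((X - C z) * G) * f2 = P1 * cj P1 + Q1 * cj Q1) :
    ∃ P0' P1' Q0' Q1' : ℂ[X],
      G * cj G * f0 = P0' * cj P0' + Q0' * cj Q0' ∧
      G * cj G * f1 = P0' * cj P1' + P1' * cj P0' + (Q0' * cj Q1' + Q1' * cj Q0') ∧
      G * cj G * f2 = P1' * cj P1' + Q1' * cj Q1' := by
  obtain ⟨u1, u2, hu, h0, h1⟩ := exists_unit_vec _ _ _ _ hD
  set U1 : ℂ[X] := C u1 with hU1
  set U2 : ℂ[X] := C u2 with hU2
  have hU : U1 * cj U1 + U2 * cj U2 = 1 := by
    rw [hU1, hU2, cj_C, cj_C, ← C_mul, ← C_mul, ← C_add, hu, C_1]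
  -- the rotated pairs
  set A0 : ℂ[X] := U1 * P0 + U2 * Q0 with hA0
  set A1 : ℂ[X] := U1 * P1 + U2 * Q1 with hA1
  set B0 : ℂ[X] := -(cj U2) * P0 + cj U1 * Q0 with hB0
  set B1 : ℂ[X] := -(cj U2) * P1 + cj U1 * Q1 with hB1
  have rot : ∀ p q p' q' : ℂ[X],
      (U1 * p + U2 * q) * cj (U1 * p' + U2 * q') +
        (-(cj U2) * p + cj U1 * q) * cj (-(cj U2) * p' + cj U1 * q')
      = p * cj p' + q * cj q' := by
    intro p q p' q'
    simp only [map_add, map_mul, map_neg, cj_cj]
    linear_combination (p * cj p' + q * cj q') * hU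
  have f0' : ((X - C z) * G) * cj ((X - C z) * G) * f0 = A0 * cj A0 + B0 * cj B0 := by
    rw [e0, hA0, hB0, rot]
  have f1' : ((X - C z) * G) * cj ((X - C z) * G) * f1
      = A0 * cj A1 + A1 * cj A0 + (B0 * cj B1 + B1 * cj B0) := by
    rw [e1]
    have r1 := rot P0 Q0 P1 Q1
    have r2 := rot P1 Q1 P0 Q0
    rw [← hA0, ← hA1, ← hB0, ← hB1] at r1 r2
    linear_combination -r1 - r2
  have f2' : ((X - C z) * G) * cj ((X - C z) * G) * f2 = A1 * cj A1 + B1 * cj B1 := by
    rw [e2, hA1, hB1, rot]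
  have a0 : A0.eval z = 0 := by simp [hA0, hU1, hU2, h0]
  have a1 : A1.eval z = 0 := by simp [hA1, hU1, hU2, h1]
  obtain ⟨a, ha⟩ := dvd_iff_isRoot.mpr a0
  obtain ⟨a', ha'⟩ := dvd_iff_isRoot.mpr a1
  -- the second pair
  have b0 : B0.eval z * (cj B0).eval z = 0 := by
    have := congrArg (eval z) f0'
    simp [a0] at this
    simpa using this
  have b1 : B0.eval z * (cj B1).eval z + B1.eval z * (cj B0).eval z = 0 := by
    have := congrArg (eval z) f1'
    simp [a0, a1] at this
    simpa using this.symm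
  have b2 : B1.eval z * (cj B1).eval z = 0 := by
    have := congrArg (eval z) f2'
    simp [a1] at this
    simpa using this
  have hcase : (B0.eval z = 0 ∧ B1.eval z = 0) ∨ ((cj B0).eval z = 0 ∧ (cj B1).eval z = 0) := by
    by_cases hx : B0.eval z = 0
    · by_cases hy : B1.eval z = 0
      · exact Or.inl ⟨hx, hy⟩
      · right
        rw [hx, zero_mul, zero_add] at b1
        exact ⟨(mul_eq_zero.mp b1).resolve_left hy, (mul_eq_zero.mp b2).resolve_left hy⟩
    · right
      have h00 : (cj B0).eval z = 0 := (mul_eq_zero.mp b0).resolve_left hx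
      rw [h00, mul_zero, add_zero] at b1
      exact ⟨h00, (mul_eq_zero.mp b1).resolve_left hx⟩
  -- cancellation
  have hN : (X - C z : ℂ[X]) * cj (X - C z) ≠ 0 := by
    apply mul_ne_zero (X_sub_C_ne_zero z)
    rw [map_sub, cj_X, cj_C]
    exact X_sub_C_ne_zero _
  have fin : ∀ b b' : ℂ[X],
      (B0 * cj B0 = ((X - C z) * cj (X - C z)) * (b * cj b)) →
      (B0 * cj B1 + B1 * cj B0 = ((X - C z) * cj (X - C z)) * (b * cj b' + b' * cj b)) →
      (B1 * cj B1 = ((X - C z) * cj (X - C z)) * (b' * cj b')) →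
      ∃ P0' P1' Q0' Q1' : ℂ[X],
      G * cj G * f0 = P0' * cj P0' + Q0' * cj Q0' ∧
      G * cj G * f1 = P0' * cj P1' + P1' * cj P0' + (Q0' * cj Q1' + Q1' * cj Q0') ∧
      G * cj G * f2 = P1' * cj P1' + Q1' * cj Q1' := by
    intro b b' g0 g1 g2
    refine ⟨a, a', b, b', ?_, ?_, ?_⟩
    · apply mul_left_cancel₀ hN
      rw [ha] at f0'
      rw [g0] at f0'
      simp only [map_mul] at f0'
      linear_combination f0'
    · apply mul_left_cancel₀ hN
      rw [ha, ha'] at f1'
      rw [g1] at f1'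
      simp only [map_mul] at f1'
      linear_combination f1'
    · apply mul_left_cancel₀ hN
      rw [ha'] at f2'
      rw [g2] at f2'
      simp only [map_mul] at f2'
      linear_combination f2'
  rcases hcase with ⟨c0, c1⟩ | ⟨c0, c1⟩
  · obtain ⟨b, hb⟩ := dvd_iff_isRoot.mpr c0
    obtain ⟨b', hb'⟩ := dvd_iff_isRoot.mpr c1
    apply fin b b'
    · rw [hb]; simp only [map_mul]; ring
    · rw [hb, hb']; simp only [map_mul]; ring
    · rw [hb']; simp only [map_mul]; ring
  · obtain ⟨b, hb⟩ := dvd_iff_isRoot.mpr c0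
    obtain ⟨b', hb'⟩ := dvd_iff_isRoot.mpr c1
    have hb2 : B0 = cj ((X - C z) * b) := by rw [← hb, cj_cj]
    have hb2' : B1 = cj ((X - C z) * b') := by rw [← hb', cj_cj]
    apply fin (cj b) (cj b')
    · rw [hb, hb2]; simp only [map_mul, cj_cj]; ring
    · rw [hb, hb', hb2, hb2']; simp only [map_mul, cj_cj]; ring
    · rw [hb', hb2']; simp only [map_mul, cj_cj]; ring

theorem descent (n : ℕ) : ∀ (G : ℂ[X]), G ≠ 0 → G.natDegree = n →
    ∀ (f0 f1 f2 P0 P1 Q0 Q1 : ℂ[X]),
    (G * cj G * f0 = P0 * cj P0 + Q0 * cj Q0) →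
    (G * cj G * f1 = P0 * cj P1 + P1 * cj P0 + (Q0 * cj Q1 + Q1 * cj Q0)) →
    (G * cj G * f2 = P1 * cj P1 + Q1 * cj Q1) →
    ∃ P0' P1' Q0' Q1' : ℂ[X],
      f0 = P0' * cj P0' + Q0' * cj Q0' ∧
      f1 = P0' * cj P1' + P1' * cj P0' + (Q0' * cj Q1' + Q1' * cj Q0') ∧
      f2 = P1' * cj P1' + Q1' * cj Q1' := by
  induction n with
  | zero =>
    intro G hG hn f0 f1 f2 P0 P1 Q0 Q1 e0 e1 e2
    obtain ⟨g, hg⟩ := natDegree_eq_zero.mp hn
    have hg0 : g ≠ 0 := by rintro rfl; exact hG (by rw [← hg, C_0])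
    set K : ℂ[X] := C g⁻¹ with hK
    have hKG : K * G = 1 := by rw [hK, ← hg, ← C_mul, inv_mul_cancel₀ hg0, C_1]
    have hKG' : cj K * cj G = 1 := by rw [← map_mul, hKG, map_one]
    refine ⟨K * P0, K * P1, K * Q0, K * Q1, ?_, ?_, ?_⟩
    · simp only [map_mul]
      linear_combination (-(f0 * cj K * cj G) * hKG) - f0 * hKG' + K * cj K * e0
    · simp only [map_mul]
      linear_combination (-(f1 * cj K * cj G) * hKG) - f1 * hKG' + K * cj K * e1
    · simp only [map_mul]
      linear_combination (-(f2 * cj K * cj G) * hKG) - f2 * hKG' + K * cj K * e2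
  | succ n ih =>
    intro G hG hn f0 f1 f2 P0 P1 Q0 Q1 e0 e1 e2
    have hdeg : G.degree ≠ 0 := by
      rw [degree_eq_natDegree hG, hn]
      exact_mod_cast Nat.succ_ne_zero n
    obtain ⟨z, hz⟩ := IsAlgClosed.exists_root G hdeg
    obtain ⟨G', hG'⟩ := dvd_iff_isRoot.mpr hz
    have hG'0 : G' ≠ 0 := by rintro rfl; exact hG (by rw [hG', mul_zero])
    have hn' : G'.natDegree = n := by
      rw [hG', natDegree_mul (X_sub_C_ne_zero z) hG'0, natDegree_X_sub_C] at hn
      omega
    rw [hG'] at e0 e1 e2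
    -- values at z
    have v0 := congrArg (eval z) e0
    have v1 := congrArg (eval z) e1
    have v2 := congrArg (eval z) e2
    simp only [eval_mul, eval_add, eval_sub, eval_X, eval_C, sub_self, zero_mul] at v0 v1 v2
    have hprod : (P0.eval z * Q1.eval z - P1.eval z * Q0.eval z) *
        (P0.eval z * (cj Q1).eval z - P1.eval z * (cj Q0).eval z) = 0 := by
      linear_combination (-(P1.eval z) ^ 2) * v0 + (P0.eval z * P1.eval z) * v1
        - (P0.eval z) ^ 2 * v2
    rcases mul_eq_zero.mp hprod with h | h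
    · obtain ⟨P0', P1', Q0', Q1', g0, g1, g2⟩ :=
        step z G' f0 f1 f2 P0 P1 Q0 Q1 (by linear_combination h) e0 e1 e2
      exact ih G' hG'0 hn' f0 f1 f2 _ _ _ _ g0 g1 g2
    · obtain ⟨P0', P1', Q0', Q1', g0, g1, g2⟩ :=
        step z G' f0 f1 f2 P0 P1 (cj Q0) (cj Q1) (by linear_combination h)
          (by rw [e0, cj_cj]; ring) (by rw [e1, cj_cj, cj_cj]; ring) (by rw [e2, cj_cj]; ring)
      exact ih G' hG'0 hn' f0 f1 f2 _ _ _ _ g0 g1 g2

theorem eval_nonneg_of_ne (q : ℝ[X]) (r : ℝ) (h : ∀ t, t ≠ r → 0 ≤ q.eval t) :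
    ∀ t, 0 ≤ q.eval t := by
  intro t
  by_cases ht : t = r
  · subst ht
    have hc : Filter.Tendsto (fun s => q.eval s) (nhdsWithin t {t}ᶜ) (nhds (q.eval t)) :=
      (q.continuous.tendsto t).mono_left nhdsWithin_le_nhds
    apply ge_of_tendsto hc
    filter_upwards [self_mem_nhdsWithin] with s hs
    exact h s hs
  · exact h t ht

/-- A nonnegative real polynomial is `ω ω̄`. -/
theorem exists_factor (n : ℕ) : ∀ p : ℝ[X], p.natDegree = n → (∀ t, 0 ≤ p.eval t) →
    ∃ w : ℂ[X], p.map (algebraMap ℝ ℂ) = w * cj w := by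
  induction n using Nat.strong_induction_on with
  | _ n ih =>
    intro p hn hp
    by_cases hp0 : p = 0
    · exact ⟨0, by simp [hp0]⟩
    by_cases hn0 : n = 0
    · obtain ⟨a, ha⟩ := natDegree_eq_zero.mp (hn.trans hn0)
      have ha0 : 0 ≤ a := by have := hp 0; rw [← ha] at this; simpa using this
      refine ⟨C ((Real.sqrt a : ℝ) : ℂ), ?_⟩
      rw [cj_C, Complex.conj_ofReal, ← C_mul, ← Complex.ofReal_mul, Real.mul_self_sqrt ha0, ← ha]
      simp
    have hinj : Function.Injective (algebraMap ℝ ℂ) := (algebraMap ℝ ℂ).injective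
    have hdeg : (p.map (algebraMap ℝ ℂ)).degree ≠ 0 := by
      rw [degree_map, degree_eq_natDegree hp0, hn]
      exact_mod_cast hn0
    obtain ⟨z, hz⟩ := IsAlgClosed.exists_root _ hdeg
    have hz' : aeval z p = 0 := by
      rw [aeval_def, ← eval_map]; exact hz
    by_cases him : z.im = 0
    · -- real root
      set r : ℝ := z.re with hr
      have hzr : z = (r : ℂ) := by apply Complex.ext <;> simp [hr, him]
      have hroot : p.eval r = 0 := by
        rw [hzr] at hz'
        have : aeval ((algebraMap ℝ ℂ) r) p = 0 := hz'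
        rw [aeval_algebraMap_apply] at this
        simpa using this
      obtain ⟨p1, hp1⟩ := dvd_iff_isRoot.mpr hroot
      have hpos : ∀ t, r < t → 0 ≤ p1.eval t := by
        intro t ht
        have := hp t
        rw [hp1, eval_mul, eval_sub, eval_X, eval_C] at this
        exact nonneg_of_mul_nonneg_right this (by linarith)
      have hneg : ∀ t, t < r → p1.eval t ≤ 0 := by
        intro t ht
        have := hp t
        rw [hp1, eval_mul, eval_sub, eval_X, eval_C] at this
        nlinarith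
      have h1 : 0 ≤ p1.eval r := by
        have hc : Filter.Tendsto (fun s => p1.eval s) (nhdsWithin r (Set.Ioi r))
            (nhds (p1.eval r)) := (p1.continuous.tendsto r).mono_left nhdsWithin_le_nhds
        apply ge_of_tendsto hc
        filter_upwards [self_mem_nhdsWithin] with s hs
        exact hpos s hs
      have h2 : p1.eval r ≤ 0 := by
        have hc : Filter.Tendsto (fun s => p1.eval s) (nhdsWithin r (Set.Iio r))
            (nhds (p1.eval r)) := (p1.continuous.tendsto r).mono_left nhdsWithin_le_nhds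
        apply le_of_tendsto hc
        filter_upwards [self_mem_nhdsWithin] with s hs
        exact hneg s hs
      obtain ⟨p2, hp2⟩ := dvd_iff_isRoot.mpr (le_antisymm h2 h1)
      have hpp : p = (X - C r) * ((X - C r) * p2) := by rw [← hp2]; exact hp1
      have hp2nn : ∀ t, 0 ≤ p2.eval t := by
        apply eval_nonneg_of_ne p2 r
        intro t ht
        have := hp t
        rw [hpp, eval_mul, eval_mul, eval_sub, eval_X, eval_C, ← mul_assoc] at this
        have hsq : 0 < (t - r) * (t - r) := mul_self_pos.mpr (sub_ne_zero.mpr ht)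
        exact nonneg_of_mul_nonneg_right this hsq
      have hp20 : p2 ≠ 0 := by rintro rfl; exact hp0 (by rw [hpp]; simp)
      have hlt : p2.natDegree < n := by
        rw [← hn, hpp, natDegree_mul (X_sub_C_ne_zero r) (mul_ne_zero (X_sub_C_ne_zero r) hp20),
          natDegree_mul (X_sub_C_ne_zero r) hp20, natDegree_X_sub_C]
        omega
      obtain ⟨w, hw⟩ := ih _ hlt p2 rfl hp2nn
      refine ⟨(X - C ((r : ℝ) : ℂ)) * w, ?_⟩
      rw [hpp, Polynomial.map_mul, Polynomial.map_mul, hw, Polynomial.map_sub, map_X, map_C,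
        map_mul, map_sub, cj_X, cj_C, Complex.conj_ofReal]
      simp only [Complex.coe_algebraMap]
      ring
    · -- complex root
      obtain ⟨p', hp'⟩ := quadratic_dvd_of_aeval_eq_zero_im_ne_zero p hz' him
      have hquad : ∀ t : ℝ, 0 < (X ^ 2 - C (2 * z.re) * X + C (‖z‖ ^ 2) : ℝ[X]).eval t := by
        intro t
        simp only [eval_add, eval_sub, eval_mul, eval_pow, eval_X, eval_C]
        have : ‖z‖ ^ 2 = z.re ^ 2 + z.im ^ 2 := by
          rw [← Complex.normSq_eq_norm_sq, Complex.normSq_apply]; ring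
        rw [this]
        have h1 : 0 < z.im ^ 2 := by positivity
        nlinarith [sq_nonneg (t - z.re)]
      have hp'nn : ∀ t, 0 ≤ p'.eval t := by
        intro t
        have := hp t
        rw [hp', eval_mul] at this
        exact nonneg_of_mul_nonneg_right this (hquad t)
      have hp'0 : p' ≠ 0 := by rintro rfl; exact hp0 (by rw [hp', mul_zero])
      have hq0 : (X ^ 2 - C (2 * z.re) * X + C (‖z‖ ^ 2) : ℝ[X]) ≠ 0 := by
        intro h0
        have := hquad 0
        rw [h0] at this; simp at this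
      have hmapq : (X ^ 2 - C (2 * z.re) * X + C (‖z‖ ^ 2) : ℝ[X]).map (algebraMap ℝ ℂ)
          = (X - C z) * (X - C (starRingEnd ℂ z)) := by
        have e1 : ((2 * z.re : ℝ) : ℂ) = z + starRingEnd ℂ z := by
          apply Complex.ext <;> simp; ring
        have e2 : ((‖z‖ ^ 2 : ℝ) : ℂ) = z * starRingEnd ℂ z := by
          rw [Complex.mul_conj, Complex.normSq_eq_norm_sq]
        rw [Polynomial.map_add, Polynomial.map_sub, Polynomial.map_mul, Polynomial.map_pow, map_X,
          map_C, map_C, Complex.coe_algebraMap, e1, e2, C_add, C_mul]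
        ring
      have hdq : (X ^ 2 - C (2 * z.re) * X + C (‖z‖ ^ 2) : ℝ[X]).natDegree = 2 := by
        have : (X ^ 2 - C (2 * z.re) * X + C (‖z‖ ^ 2) : ℝ[X])
            = C 1 * X ^ 2 + C (-(2 * z.re)) * X + C (‖z‖ ^ 2) := by
          rw [C_neg, C_1]; ring
        rw [this]
        exact natDegree_quadratic one_ne_zero
      have hlt : p'.natDegree < n := by
        rw [← hn, hp', natDegree_mul hq0 hp'0, hdq]
        omega
      obtain ⟨w, hw⟩ := ih _ hlt p' rfl hp'nn
      refine ⟨(X - C z) * w, ?_⟩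
      rw [hp', Polynomial.map_mul, hw, hmapq, map_mul, map_sub, cj_X, cj_C]
      ring

theorem exists_re_im (p : ℂ[X]) : ∃ u v : ℝ[X],
    p = u.map (algebraMap ℝ ℂ) + C Complex.I * v.map (algebraMap ℝ ℂ) := by
  induction p using Polynomial.induction_on' with
  | add p q hp hq =>
    obtain ⟨u, v, h⟩ := hp
    obtain ⟨u', v', h'⟩ := hq
    refine ⟨u + u', v + v', ?_⟩
    rw [h, h', Polynomial.map_add, Polynomial.map_add]
    ring
  | monomial n a =>
    refine ⟨monomial n a.re, monomial n a.im, ?_⟩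
    rw [map_monomial, map_monomial, C_mul_monomial, ← map_add]
    congr 1
    apply Complex.ext <;> simp

/-- A positive semidefinite `2 × 2` real polynomial matrix is a sum of four rank one squares. -/
theorem matrix_sos (a b c : ℝ[X]) (ha : ∀ t, 0 ≤ a.eval t) (hc : ∀ t, 0 ≤ c.eval t)
    (hb : ∀ t, (b.eval t) ^ 2 ≤ a.eval t * c.eval t) :
    ∃ α β : Fin 4 → ℝ[X], a = ∑ i, α i ^ 2 ∧ b = ∑ i, α i * β i ∧ c = ∑ i, β i ^ 2 := by
  have hinj : Function.Injective (Polynomial.map (algebraMap ℝ ℂ)) :=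
    Polynomial.map_injective _ (algebraMap ℝ ℂ).injective
  have hII : (C Complex.I : ℂ[X]) * C Complex.I = -1 := by
    rw [← C_mul, Complex.I_mul_I, C_neg, C_1]
  have hcI : cj (C Complex.I) = -C Complex.I := by
    rw [cj_C, Complex.conj_I, C_neg]
  -- reduce to a complex representation
  suffices H : ∃ P0 P1 Q0 Q1 : ℂ[X],
      a.map (algebraMap ℝ ℂ) = P0 * cj P0 + Q0 * cj Q0 ∧
      2 * b.map (algebraMap ℝ ℂ) = P0 * cj P1 + P1 * cj P0 + (Q0 * cj Q1 + Q1 * cj Q0) ∧
      c.map (algebraMap ℝ ℂ) = P1 * cj P1 + Q1 * cj Q1 by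
    obtain ⟨P0, P1, Q0, Q1, h0, h1, h2⟩ := H
    obtain ⟨p0, p0', hp0⟩ := exists_re_im P0
    obtain ⟨p1, p1', hp1⟩ := exists_re_im P1
    obtain ⟨q0, q0', hq0⟩ := exists_re_im Q0
    obtain ⟨q1, q1', hq1⟩ := exists_re_im Q1
    refine ⟨![p0, p0', q0, q0'], ![p1, p1', q1, q1'], ?_, ?_, ?_⟩
    · apply hinj
      rw [h0, hp0, hq0]
      simp only [Fin.sum_univ_four, Matrix.cons_val, map_add, map_mul, cj_map, hcI,
        Polynomial.map_add, Polynomial.map_pow]
      linear_combination (-(p0'.map (algebraMap ℝ ℂ)) ^ 2 - (q0'.map (algebraMap ℝ ℂ)) ^ 2) * hII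
    · have h2' : (2 : ℂ[X]) ≠ 0 := two_ne_zero
      apply hinj
      apply mul_left_cancel₀ h2'
      rw [h1, hp0, hq0, hp1, hq1]
      simp only [Fin.sum_univ_four, Matrix.cons_val, map_add, map_mul, cj_map, hcI,
        Polynomial.map_add, Polynomial.map_mul]
      linear_combination (-2 * (p0'.map (algebraMap ℝ ℂ)) * (p1'.map (algebraMap ℝ ℂ))
        - 2 * (q0'.map (algebraMap ℝ ℂ)) * (q1'.map (algebraMap ℝ ℂ))) * hII
    · apply hinj
      rw [h2, hp1, hq1]
      simp only [Fin.sum_univ_four, Matrix.cons_val, map_add, map_mul, cj_map, hcI,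
        Polynomial.map_add, Polynomial.map_pow]
      linear_combination (-(p1'.map (algebraMap ℝ ℂ)) ^ 2 - (q1'.map (algebraMap ℝ ℂ)) ^ 2) * hII
  by_cases hc0 : c = 0
  · have hb0 : b = 0 := by
      apply Polynomial.funext
      intro t
      have := hb t
      rw [hc0] at this
      simp only [eval_zero, mul_zero] at this ⊢
      exact pow_eq_zero_iff (two_ne_zero) |>.mp (le_antisymm this (sq_nonneg _))
    obtain ⟨w, hw⟩ := exists_factor _ a rfl ha
    refine ⟨w, 0, 0, 0, ?_, ?_, ?_⟩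
    · rw [hw]; simp
    · rw [hb0]; simp
    · rw [hc0]; simp
  · obtain ⟨G, hG⟩ := exists_factor _ c rfl hc
    have hG0 : G ≠ 0 := by
      rintro rfl
      apply hc0
      apply hinj
      rw [hG]; simp
    obtain ⟨w, hw⟩ := exists_factor _ (a * c - b ^ 2) rfl (by
      intro t
      have := hb t
      simp only [eval_sub, eval_mul, eval_pow]
      linarith)
    rw [Polynomial.map_sub, Polynomial.map_mul, Polynomial.map_pow] at hw
    apply descent G.natDegree G hG0 rfl (a.map (algebraMap ℝ ℂ)) (2 * b.map (algebraMap ℝ ℂ))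
      (c.map (algebraMap ℝ ℂ)) (b.map (algebraMap ℝ ℂ)) (c.map (algebraMap ℝ ℂ)) w 0
    · rw [cj_map, ← hG]
      linear_combination hw
    · rw [cj_map, cj_map, ← hG]
      simp only [map_zero, mul_zero, zero_mul, add_zero]
      ring
    · rw [cj_map, ← hG]
      simp only [mul_zero, zero_mul, add_zero]

end Pool.Agent.NH61.Decic
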