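import Pool.Agent.NH61.Decic.Strict
import Pool.Agent.NH61.Decic.MatSOS

/-!
# Forms supported on the first two rows are sums of squares
-/

namespace Pool.Agent.NH61.Decic

open MvPolynomial

theorem eval_mono (x : Fin 3 → ℝ) (k : Fin 21) : eval x (mono k) = monoVal k x := by
  unfold mono monoVal
  simp

theorem eval_fA (A : Matrix (Fin 21) (Fin 21) ℝ) (x : Fin 3 → ℝ) : eval x (fA A) = gq A x := by
  rw [gq_eq]
  unfold fA
  simp [eval_mono]

theorem mono_homog (k : Fin 21) : (mono k).IsHomogeneous 5 := by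
  unfold mono monoVal
  rw [← expo_sum k]
  exact ((isHomogeneous_X_pow 0 _).mul (isHomogeneous_X_pow 1 _)).mul (isHomogeneous_X_pow 2 _)

theorem comb_homog (c : Fin 21 → ℝ) : (∑ k, C (c k) * mono k).IsHomogeneous 5 := by
  apply IsHomogeneous.sum
  intro k _
  have := (isHomogeneous_C (Fin 3) (c k)).mul (mono_homog k)
  simpa using this

theorem fA_homog (A : Matrix (Fin 21) (Fin 21) ℝ) : (fA A).IsHomogeneous 10 := by
  unfold fA
  apply IsHomogeneous.sum
  intro k _
  apply IsHomogeneous.sum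
  intro l _
  have := (isHomogeneous_C (Fin 3) (A k l)).mul ((mono_homog k).mul (mono_homog l))
  simpa using this

theorem eval_comb_mono (c : Fin 21 → ℝ) (x : Fin 3 → ℝ) :
    eval x (∑ k, C (c k) * mono k) = ∑ k, c k * monoVal k x := by
  simp [eval_mono]

theorem ext_affine (f g : MvPolynomial (Fin 3) ℝ)
    (h : ∀ x : Fin 3 → ℝ, x 0 ≠ 0 → eval x f = eval x g) : f = g := by
  have h1 : (X 0 : MvPolynomial (Fin 3) ℝ) * (f - g) = 0 := by
    apply MvPolynomial.funext
    intro x
    by_cases hx : x 0 = 0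
    · simp [hx]
    · simp [h x hx]
  have h2 : f - g = 0 := (mul_eq_zero.mp h1).resolve_left (X_ne_zero 0)
  exact sub_eq_zero.mp h2

theorem natDegree_le_of_sum_sq (a : Polynomial ℝ) (α : Fin 4 → Polynomial ℝ) (n : ℕ)
    (h : a = ∑ i, α i ^ 2) (hn : a.natDegree ≤ 2 * n) (i : Fin 4) : (α i).natDegree ≤ n := by
  by_contra hcon
  push Not at hcon
  obtain ⟨j, _, hj⟩ := Finset.exists_max_image Finset.univ (fun i => (α i).natDegree)
    ⟨i, Finset.mem_univ i⟩
  set N := (α j).natDegree with hN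
  have hle : ∀ k, (α k).natDegree ≤ N := fun k => hj k (Finset.mem_univ k)
  have hnN : n < N := lt_of_lt_of_le hcon (hle i)
  have hcoef : a.coeff (N + N) = ∑ k, ((α k).coeff N) ^ 2 := by
    rw [h, Polynomial.finsetSum_coeff]
    apply Finset.sum_congr rfl
    intro k _
    rw [sq, Polynomial.coeff_mul_add_eq_of_natDegree_le (hle k) (hle k), sq]
  have hz : a.coeff (N + N) = 0 := Polynomial.coeff_eq_zero_of_natDegree_lt (by omega)
  rw [hcoef] at hz
  have hj0 : ((α j).coeff N) ^ 2 = 0 :=
    (Finset.sum_eq_zero_iff_of_nonneg (fun k _ => sq_nonneg _)).mp hz j (Finset.mem_univ j)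
  have hj1 : (α j).coeff N = 0 := pow_eq_zero_iff (two_ne_zero) |>.mp hj0
  have : α j = 0 := by
    rw [← Polynomial.leadingCoeff_eq_zero]
    exact hj1
  rw [this] at hN
  simp at hN
  omega

/-- The coefficient of `s^d` after setting `x = (1, t, s)`. -/
noncomputable def row (B : Matrix (Fin 21) (Fin 21) ℝ) (d : ℕ) : Polynomial ℝ :=
  ∑ k, ∑ l, if expo k 2 + expo l 2 = d then
    Polynomial.C (B k l) * Polynomial.X ^ (expo k 1 + expo l 1) else 0

theorem eval_row (B : Matrix (Fin 21) (Fin 21) ℝ) (d : ℕ) (t : ℝ) :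
    (row B d).eval t = ∑ k, ∑ l, if expo k 2 + expo l 2 = d then
      B k l * t ^ (expo k 1 + expo l 1) else 0 := by
  unfold row
  rw [Polynomial.eval_finsetSum]
  apply Finset.sum_congr rfl
  intro k _
  rw [Polynomial.eval_finsetSum]
  apply Finset.sum_congr rfl
  intro l _
  split_ifs <;> simp

theorem expo2_le : ∀ k : Fin 21, k.val ≤ 10 → expo k 2 ≤ 1 := by decide +kernel

theorem gq_rows (B : Matrix (Fin 21) (Fin 21) ℝ) (hB : B.IsSymm)
    (hs : ∀ a b : Fin 21, 10 < a.val → B a b = 0) (t s : ℝ) :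
    gq B ![1, t, s] = (row B 0).eval t + (row B 1).eval t * s + (row B 2).eval t * s ^ 2 := by
  rw [gq_eq, eval_row, eval_row, eval_row, Finset.sum_mul, Finset.sum_mul,
    ← Finset.sum_add_distrib, ← Finset.sum_add_distrib]
  apply Finset.sum_congr rfl
  intro k _
  rw [Finset.sum_mul, Finset.sum_mul, ← Finset.sum_add_distrib, ← Finset.sum_add_distrib]
  apply Finset.sum_congr rfl
  intro l _
  by_cases hk : k.val ≤ 10
  · by_cases hl : l.val ≤ 10
    · have h1 := expo2_le k hk
      have h2 := expo2_le l hl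
      have hv : monoVal k ![1, t, s] * monoVal l ![1, t, s]
          = t ^ (expo k 1 + expo l 1) * s ^ (expo k 2 + expo l 2) := by
        unfold monoVal
        simp only [Matrix.cons_val, one_pow, one_mul]
        rw [pow_add, pow_add]; ring
      rw [hv]
      have hcases : expo k 2 + expo l 2 = 0 ∨ expo k 2 + expo l 2 = 1 ∨
          expo k 2 + expo l 2 = 2 := by omega
      rcases hcases with h | h | h <;> rw [h] <;> simp <;> ring
    · have : B k l = 0 := (hB.apply l k).trans (hs l k (by omega))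
      simp [this]
  · simp [hs k l (by omega)]

theorem natDegree_row0 (B : Matrix (Fin 21) (Fin 21) ℝ) : (row B 0).natDegree ≤ 2 * 5 := by
  unfold row
  apply Polynomial.natDegree_sum_le_of_forall_le
  intro k _
  apply Polynomial.natDegree_sum_le_of_forall_le
  intro l _
  split_ifs with h
  · refine (Polynomial.natDegree_C_mul_X_pow_le _ _).trans ?_
    have h1 := expo_sum k
    have h2 := expo_sum l
    omega
  · simp

theorem natDegree_row2 (B : Matrix (Fin 21) (Fin 21) ℝ) : (row B 2).natDegree ≤ 2 * 4 := by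
  unfold row
  apply Polynomial.natDegree_sum_le_of_forall_le
  intro k _
  apply Polynomial.natDegree_sum_le_of_forall_le
  intro l _
  split_ifs with h
  · refine (Polynomial.natDegree_C_mul_X_pow_le _ _).trans ?_
    have h1 := expo_sum k
    have h2 := expo_sum l
    omega
  · simp

/-- The Gram vector of `α(t) + β(t) s`. -/
noncomputable def gvec (α β : Polynomial ℝ) (k : Fin 21) : ℝ :=
  if expo k 2 = 0 then α.coeff (expo k 1) else if expo k 2 = 1 then β.coeff (expo k 1) else 0

theorem gvec_eval (α β : Polynomial ℝ) (hα : α.natDegree ≤ 5) (hβ : β.natDegree ≤ 4) (t s : ℝ) :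
    ∑ k, gvec α β k * monoVal k ![1, t, s] = α.eval t + β.eval t * s := by
  rw [Polynomial.eval_eq_sum_range' (show α.natDegree < 6 by omega),
    Polynomial.eval_eq_sum_range' (show β.natDegree < 5 by omega)]
  simp only [Fin.sum_univ_succ, Finset.sum_range_succ, Finset.sum_range_zero]
  simp [gvec, monoVal, expo, Fin.succ]
  ring

theorem monoVal_scale (k : Fin 21) (x : Fin 3 → ℝ) (hx : x 0 ≠ 0) :
    monoVal k x = x 0 ^ 5 * monoVal k ![1, x 1 / x 0, x 2 / x 0] := by
  unfold monoVal
  simp only [Matrix.cons_val, one_pow, one_mul, div_pow]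
  have h := expo_sum k
  have h5 : x 0 ^ 5 = x 0 ^ expo k 0 * x 0 ^ expo k 1 * x 0 ^ expo k 2 := by
    rw [← pow_add, ← pow_add, h]
  rw [h5]
  field_simp

theorem gq_scale (B : Matrix (Fin 21) (Fin 21) ℝ) (x : Fin 3 → ℝ) (hx : x 0 ≠ 0) :
    gq B x = x 0 ^ 10 * gq B ![1, x 1 / x 0, x 2 / x 0] := by
  rw [gq_eq, gq_eq, Finset.mul_sum]
  apply Finset.sum_congr rfl
  intro k _
  rw [Finset.mul_sum]
  apply Finset.sum_congr rfl
  intro l _
  rw [monoVal_scale k x hx, monoVal_scale l x hx]
  ring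

theorem two_rows_sos (B : Matrix (Fin 21) (Fin 21) ℝ) (hB : B.IsSymm)
    (hs : ∀ a b : Fin 21, 10 < a.val → B a b = 0) (hpos : ∀ x, 0 ≤ gq B x) :
    ∃ g : Fin 4 → Fin 21 → ℝ, fA B = ∑ i, (∑ k, C (g i k) * mono k) ^ 2 := by
  have hq : ∀ t s : ℝ, 0 ≤ (row B 0).eval t + (row B 1).eval t * s + (row B 2).eval t * s ^ 2 := by
    intro t s
    rw [← gq_rows B hB hs]
    exact hpos _
  have h0 : ∀ t, 0 ≤ (row B 0).eval t := by
    intro t
    have := hq t 0
    simpa using this
  have hd : ∀ t, (row B 1).eval t ^ 2 ≤ 4 * ((row B 0).eval t * (row B 2).eval t) := by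
    intro t
    have := discrim_le_zero (a := (row B 2).eval t) (b := (row B 1).eval t)
      (c := (row B 0).eval t) (by
        intro s
        have := hq t s
        linarith [this, mul_comm s s, sq s])
    unfold discrim at this
    linarith
  have h2 : ∀ t, 0 ≤ (row B 2).eval t := by
    intro t
    by_contra hneg
    push Not at hneg
    have e1 := hd t
    have e2 := h0 t
    have e3 : (row B 1).eval t ^ 2 ≤ 0 := by nlinarith
    have e4 : (row B 1).eval t = 0 := pow_eq_zero_iff (two_ne_zero) |>.mp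
      (le_antisymm e3 (sq_nonneg _))
    rw [e4] at e1
    have e5 : (row B 0).eval t ≤ 0 := by nlinarith
    have e6 := hq t 1
    rw [e4] at e6
    linarith
  obtain ⟨α, β, ea, eb, ec⟩ := matrix_sos (row B 0) (Polynomial.C (1 / 2) * row B 1) (row B 2)
    h0 h2 (by
      intro t
      simp only [Polynomial.eval_mul, Polynomial.eval_C]
      have := hd t
      nlinarith)
  have dα : ∀ i, (α i).natDegree ≤ 5 := natDegree_le_of_sum_sq _ α 5 ea (natDegree_row0 B)
  have dβ : ∀ i, (β i).natDegree ≤ 4 := natDegree_le_of_sum_sq _ β 4 ec (natDegree_row2 B)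
  refine ⟨fun i => gvec (α i) (β i), ?_⟩
  apply ext_affine
  intro x hx
  rw [eval_fA, gq_scale B x hx, gq_rows B hB hs]
  rw [map_sum]
  have : ∀ i, eval x ((∑ k, C (gvec (α i) (β i) k) * mono k) ^ 2)
      = x 0 ^ 10 * ((α i).eval (x 1 / x 0) + (β i).eval (x 1 / x 0) * (x 2 / x 0)) ^ 2 := by
    intro i
    rw [map_pow, eval_comb_mono]
    have : ∑ k, gvec (α i) (β i) k * monoVal k x
        = x 0 ^ 5 * ∑ k, gvec (α i) (β i) k * monoVal k ![1, x 1 / x 0, x 2 / x 0] := by
      rw [Finset.mul_sum]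
      apply Finset.sum_congr rfl
      intro k _
      rw [monoVal_scale k x hx]
      ring
    rw [this, gvec_eval _ _ (dα i) (dβ i)]
    ring
  simp only [this]
  rw [← Finset.mul_sum]
  congr 1
  set t := x 1 / x 0
  set s := x 2 / x 0
  have ea' := congrArg (Polynomial.eval t) ea
  have eb' := congrArg (Polynomial.eval t) eb
  have ec' := congrArg (Polynomial.eval t) ec
  simp only [Polynomial.eval_finsetSum, Polynomial.eval_pow, Polynomial.eval_mul,
    Polynomial.eval_C] at ea' eb' ec'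
  rw [ea', ec']
  have eb'' : (row B 1).eval t = 2 * ∑ i, (α i).eval t * (β i).eval t := by linarith
  rw [eb'', Finset.mul_sum, Finset.sum_mul, Finset.sum_mul, ← Finset.sum_add_distrib,
    ← Finset.sum_add_distrib]
  apply Finset.sum_congr rfl
  intro i _
  ring

/-- Sums of squares are closed under addition, in the form needed here. -/
theorem mem_sosCone_add {m n : ℕ} (f : Fin m → MvPolynomial (Fin 3) ℝ)
    (g : Fin n → MvPolynomial (Fin 3) ℝ) (hf : ∀ i, (f i).IsHomogeneous 5)
    (hg : ∀ i, (g i).IsHomogeneous 5) : ∑ i, f i ^ 2 + ∑ i, g i ^ 2 ∈ sosCone := by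
  refine ⟨m + n, Fin.append f g, ?_, ?_⟩
  · intro i
    refine Fin.addCases (fun i => ?_) (fun i => ?_) i
    · rw [Fin.append_left]; exact hf i
    · rw [Fin.append_right]; exact hg i
  · rw [Fin.sum_univ_add]
    simp only [Fin.append_left, Fin.append_right]

theorem fA_mem_sosCone (A : Matrix (Fin 21) (Fin 21) ℝ) (hA : A.IsSymm)
    (hq : ∀ w ∈ Pts 10, 0 ≤ qA A w) : fA A ∈ sosCone := by
  obtain ⟨c, B, hB, hAB, hsupp, hpos⟩ := elim' 10 (by norm_num) A hA hq
  obtain ⟨g, hg⟩ := two_rows_sos B hB hsupp hpos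
  have : fA A = ∑ i, (∑ k, C (c i k) * mono k) ^ 2 + ∑ i, (∑ k, C (g i k) * mono k) ^ 2 := by
    rw [← hg]
    apply MvPolynomial.funext
    intro x
    rw [eval_fA, map_add, eval_fA, gq_add_squares A B c hAB, map_sum]
    congr 1
    apply Finset.sum_congr rfl
    intro i _
    rw [map_pow, eval_comb_mono]
  rw [this]
  exact mem_sosCone_add _ _ (fun i => comb_homog _) (fun i => comb_homog _)

end Pool.Agent.NH61.Decic
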