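import Pool.Agent.NH61.Decic.Elim

/-!
# Motzkin type forms do not descend one step in the filtration
-/

namespace Pool.Agent.NH61.Decic

open Polynomial

theorem indep_pow (w : Fin 21 → ℕ) (hw : Function.Injective w) (c : Fin 21 → ℝ)
    (h : ∀ r : ℝ, ∑ k, c k * r ^ w k = 0) : c = 0 := by
  have hp : (∑ k, Polynomial.C (c k) * X ^ w k : ℝ[X]) = 0 := by
    apply Polynomial.funext
    intro r
    rw [eval_comb, eval_zero]
    exact h r
  funext i
  have := coeff_comb _ hw c i
  rw [hp, coeff_zero] at this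
  simpa using this.symm

/-- `α_k + α_l = 2 α_i`. -/
def Mid (k l i : Fin 21) : Prop := ∀ t, expo k t + expo l t = 2 * expo i t

instance (k l i : Fin 21) : Decidable (Mid k l i) := by unfold Mid; infer_instance

/-- The coefficient of `m_i²` in the form with Gram matrix `S`. -/
def pairSum (S : Matrix (Fin 21) (Fin 21) ℝ) (i : Fin 21) : ℝ :=
  ∑ k, ∑ l, if Mid k l i then S k l else 0

/-- change the sign of the coordinate 1 -/
def fl1 (x : Fin 3 → ℝ) : Fin 3 → ℝ := ![x 0, -x 1, x 2]

/-- change the sign of the coordinate 2 -/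
def fl2 (x : Fin 3 → ℝ) : Fin 3 → ℝ := ![x 0, x 1, -x 2]

theorem monoVal_fl1 (i : Fin 21) (x : Fin 3 → ℝ) :
    monoVal i (fl1 x) = (-1) ^ expo i 1 * monoVal i x := by
  unfold monoVal fl1
  simp only [Matrix.cons_val]
  rw [neg_pow (x 1)]
  ring

theorem monoVal_fl2 (i : Fin 21) (x : Fin 3 → ℝ) :
    monoVal i (fl2 x) = (-1) ^ expo i 2 * monoVal i x := by
  unfold monoVal fl2
  simp only [Matrix.cons_val]
  rw [neg_pow (x 2)]
  ring

/-- The Gram form at a point. -/
def gq (S : Matrix (Fin 21) (Fin 21) ℝ) (x : Fin 3 → ℝ) : ℝ := qA S (fun i => monoVal i x)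

theorem gq_eq (S : Matrix (Fin 21) (Fin 21) ℝ) (x : Fin 3 → ℝ) :
    gq S x = ∑ k, ∑ l, S k l * (monoVal k x * monoVal l x) := by
  unfold gq qA
  simp only [dotProduct, Matrix.mulVec, Finset.mul_sum]
  apply Finset.sum_congr rfl
  intro k _
  apply Finset.sum_congr rfl
  intro l _
  ring

theorem pair_term (k l : Fin 21) (x : Fin 3 → ℝ) :
    monoVal k x * monoVal l x * ((1 + (-1) ^ (expo k 1 + expo l 1)) *
      (1 + (-1) ^ (expo k 2 + expo l 2))) = 4 * ∑ i, if Mid k l i then monoVal i x ^ 2 else 0 := by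
  by_cases h : Even (expo k 1 + expo l 1) ∧ Even (expo k 2 + expo l 2)
  · obtain ⟨⟨a, ha⟩, ⟨b, hb⟩⟩ := h
    have hk := expo_sum k
    have hl := expo_sum l
    obtain ⟨i, hi⟩ := expo_surj ![5 - a - b, a, b] (by simp; omega)
    have hi0 : expo i 0 = 5 - a - b := by rw [hi]; rfl
    have hi1 : expo i 1 = a := by rw [hi]; rfl
    have hi2 : expo i 2 = b := by rw [hi]; rfl
    have hmid : Mid k l i := by
      intro t
      fin_cases t
      · show expo k 0 + expo l 0 = 2 * expo i 0
        omega
      · show expo k 1 + expo l 1 = 2 * expo i 1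
        omega
      · show expo k 2 + expo l 2 = 2 * expo i 2
        omega
    have hsum : (∑ i', if Mid k l i' then monoVal i' x ^ 2 else 0) = monoVal i x ^ 2 := by
      rw [Finset.sum_eq_single i]
      · rw [if_pos hmid]
      · intro i' _ hne
        rw [if_neg]
        intro hm
        apply hne
        apply expo_inj
        funext t
        have h1 := hm t
        have h2 := hmid t
        omega
      · simp
    rw [hsum, ha, hb, ← two_mul, ← two_mul, pow_mul, pow_mul]
    have hv : monoVal k x * monoVal l x = monoVal i x ^ 2 := by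
      unfold monoVal
      have h0 := hmid 0
      have h1 := hmid 1
      have h2 := hmid 2
      calc x 0 ^ expo k 0 * x 1 ^ expo k 1 * x 2 ^ expo k 2 *
            (x 0 ^ expo l 0 * x 1 ^ expo l 1 * x 2 ^ expo l 2)
          = x 0 ^ (expo k 0 + expo l 0) * x 1 ^ (expo k 1 + expo l 1) *
              x 2 ^ (expo k 2 + expo l 2) := by
            rw [pow_add, pow_add, pow_add]; ring
        _ = _ := by rw [h0, h1, h2]; ring
    rw [hv]
    norm_num
    ring
  · have hz : (∑ i', if Mid k l i' then monoVal i' x ^ 2 else 0) = 0 := by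
      apply Finset.sum_eq_zero
      intro i _
      rw [if_neg]
      intro hm
      apply h
      exact ⟨⟨expo i 1, by rw [hm 1]; ring⟩, ⟨expo i 2, by rw [hm 2]; ring⟩⟩
    rw [hz]
    rw [not_and_or, Nat.not_even_iff_odd, Nat.not_even_iff_odd] at h
    rcases h with h | h
    · rw [h.neg_one_pow]; ring
    · rw [h.neg_one_pow]; ring

/-- The average over sign changes only sees the coefficients of the squares. -/
theorem even_part (S : Matrix (Fin 21) (Fin 21) ℝ) (x : Fin 3 → ℝ) :
    gq S x + gq S (fl1 x) + gq S (fl2 x) + gq S (fl2 (fl1 x))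
      = 4 * ∑ i, pairSum S i * monoVal i x ^ 2 := by
  have h1 : ∑ i, pairSum S i * monoVal i x ^ 2
      = ∑ k, ∑ l, S k l * ∑ i, if Mid k l i then monoVal i x ^ 2 else 0 := by
    unfold pairSum
    simp only [Finset.sum_mul, Finset.mul_sum]
    rw [Finset.sum_comm]
    apply Finset.sum_congr rfl
    intro k _
    rw [Finset.sum_comm]
    apply Finset.sum_congr rfl
    intro l _
    apply Finset.sum_congr rfl
    intro i _
    split_ifs <;> simp
  rw [h1, gq_eq, gq_eq, gq_eq, gq_eq, ← Finset.sum_add_distrib, ← Finset.sum_add_distrib,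
    ← Finset.sum_add_distrib, Finset.mul_sum]
  apply Finset.sum_congr rfl
  intro k _
  rw [← Finset.sum_add_distrib, ← Finset.sum_add_distrib, ← Finset.sum_add_distrib, Finset.mul_sum]
  apply Finset.sum_congr rfl
  intro l _
  have hpt := pair_term k l x
  simp only [monoVal_fl2, monoVal_fl1]
  simp only [pow_add] at hpt
  linear_combination (S k l) * hpt

theorem gq_add_squares (A B : Matrix (Fin 21) (Fin 21) ℝ) (g : Fin 21 → Fin 21 → ℝ)
    (h : ∀ a b : Fin 21, A a b = ∑ k, g k a * g k b + B a b) (x : Fin 3 → ℝ) :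
    gq A x = ∑ k, (∑ a, g k a * monoVal a x) ^ 2 + gq B x := by
  rw [gq_eq, gq_eq]
  simp only [h, add_mul, Finset.sum_add_distrib]
  congr 1
  simp only [Finset.sum_mul]
  rw [Finset.sum_congr rfl (fun a _ => Finset.sum_comm), Finset.sum_comm]
  apply Finset.sum_congr rfl
  intro k _
  rw [sq, Finset.sum_mul_sum]
  apply Finset.sum_congr rfl
  intro a _
  apply Finset.sum_congr rfl
  intro b _
  ring

/-- The Motzkin type form attached to four indices. -/
def mot (v p q c : Fin 21) (x : Fin 3 → ℝ) : ℝ :=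
  monoVal v x ^ 2 + monoVal p x ^ 2 + monoVal q x ^ 2 - 3 * monoVal c x ^ 2

theorem mot_fl1 (v p q c : Fin 21) (x : Fin 3 → ℝ) : mot v p q c (fl1 x) = mot v p q c x := by
  unfold mot
  simp only [monoVal_fl1, mul_pow, ← pow_mul, mul_comm _ 2]
  simp [pow_mul]

theorem mot_fl2 (v p q c : Fin 21) (x : Fin 3 → ℝ) : mot v p q c (fl2 x) = mot v p q c x := by
  unfold mot
  simp only [monoVal_fl2, mul_pow, ← pow_mul, mul_comm _ 2]
  simp [pow_mul]

theorem final_contra (b1 b2 b3 : ℝ) (e1 e2 e : ℕ) (hb : b3 ≤ -3) (h1 : e1 < e) (h2 : e2 < e)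
    (h : ∀ r : ℝ, 1 ≤ r → 0 ≤ b1 * r ^ (2 * e1) + b2 * r ^ (2 * e2) + b3 * r ^ (2 * e)) :
    False := by
  have hγ1n : 0 ≤ |b1| := abs_nonneg _
  have hγ2n : 0 ≤ |b2| := abs_nonneg _
  set r : ℝ := 1 + |b1| + |b2| with hr
  have hr1 : 1 ≤ r := by linarith
  have hr0 : 0 < r := by linarith
  have hfin := h r hr1
  have hs : 0 < r ^ (2 * (e - 1)) := by positivity
  have k1 : b1 * r ^ (2 * e1) ≤ |b1| * r ^ (2 * (e - 1)) := by
    calc b1 * r ^ (2 * e1) ≤ |b1| * r ^ (2 * e1) :=
          mul_le_mul_of_nonneg_right (le_abs_self _) (by positivity)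
      _ ≤ |b1| * r ^ (2 * (e - 1)) :=
          mul_le_mul_of_nonneg_left (pow_le_pow_right₀ hr1 (by omega)) hγ1n
  have k2 : b2 * r ^ (2 * e2) ≤ |b2| * r ^ (2 * (e - 1)) := by
    calc b2 * r ^ (2 * e2) ≤ |b2| * r ^ (2 * e2) :=
          mul_le_mul_of_nonneg_right (le_abs_self _) (by positivity)
      _ ≤ |b2| * r ^ (2 * (e - 1)) :=
          mul_le_mul_of_nonneg_left (pow_le_pow_right₀ hr1 (by omega)) hγ2n
  have k3 : b3 * r ^ (2 * e) ≤ -3 * (r ^ 2 * r ^ (2 * (e - 1))) := by
    have h4 : r ^ (2 * e) = r ^ 2 * r ^ (2 * (e - 1)) := by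
      rw [← pow_add]; congr 1; omega
    rw [h4]
    have h5 : 0 ≤ r ^ 2 * r ^ (2 * (e - 1)) := by positivity
    nlinarith
  have k4 : 0 ≤ (|b1| + |b2| - 3 * r ^ 2) * r ^ (2 * (e - 1)) := by linarith
  have k5 : 0 ≤ |b1| + |b2| - 3 * r ^ 2 := nonneg_of_mul_nonneg_left k4 hs
  nlinarith

/-- The main obstruction. -/
theorem not_gram (v p q c : Fin 21) (ws : List (Fin 3 → ℕ)) (u' : Fin 3 → ℕ)
    (hv0 : 0 < v.val)
    (hlt : p ≠ v ∧ q ≠ v ∧ c ≠ v ∧ p ≠ q ∧ p ≠ c ∧ q ≠ c)
    (hw : ∀ u ∈ ws, Function.Injective (wt u))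
    (hsep : ∀ i, i ≠ v → i ≠ p → i ≠ q → i ≠ c →
      ∃ u ∈ ws, wt u v < wt u i ∧ wt u p < wt u i ∧ wt u q < wt u i)
    (hcc : ∀ a b, (a = v ∨ a = p ∨ a = q ∨ a = c) → (b = v ∨ b = p ∨ b = q ∨ b = c) →
      Mid a b c → a = c ∧ b = c)
    (hvv : ∀ k l, k < v → l < v → ¬ Mid k l v)
    (hu' : wt u' p < wt u' c ∧ wt u' q < wt u' c)
    (A : Matrix (Fin 21) (Fin 21) ℝ) (hA : A.IsSymm)
    (hq : ∀ w ∈ Pts (v.val - 1), 0 ≤ qA A w)
    (hM : ∀ x, gq A x = mot v p q c x) : False := by
  obtain ⟨g, B, hB, hAB, hsupp, hpos⟩ := elim' (v.val - 1) (by omega) A hA hq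
  have hsq := gq_add_squares A B g hAB
  have hBpos : ∀ x, 0 ≤ gq B x := hpos
  -- upper bound for `mot` on curves
  have hmot : ∀ (u : Fin 3 → ℕ) (r : ℝ), 1 ≤ r →
      mot v p q c (curve u r) ≤ 3 * r ^ (2 * max (wt u v) (max (wt u p) (wt u q))) := by
    intro u r hr
    set D := max (wt u v) (max (wt u p) (wt u q)) with hD
    unfold mot
    simp only [monoVal_curve, ← pow_mul, mul_comm _ 2]
    have h1 : r ^ (2 * wt u v) ≤ r ^ (2 * D) := pow_le_pow_right₀ hr (by omega)
    have h2 : r ^ (2 * wt u p) ≤ r ^ (2 * D) := pow_le_pow_right₀ hr (by omega)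
    have h3 : r ^ (2 * wt u q) ≤ r ^ (2 * D) := pow_le_pow_right₀ hr (by omega)
    have h4 : 0 ≤ r ^ (2 * wt u c) := by positivity
    linarith
  -- the squares are supported on the triangle
  have hg : ∀ k i, i ≠ v → i ≠ p → i ≠ q → i ≠ c → g k i = 0 := by
    intro k i h1 h2 h3 h4
    obtain ⟨u, hu, hs1, hs2, hs3⟩ := hsep i h1 h2 h3 h4
    apply growth (wt u) (hw u hu) (g k) (max (wt u v) (max (wt u p) (wt u q))) 2 _ i
      (by omega)
    intro r hr
    have hr0 : 0 ≤ r := by linarith
    apply abs_le_of_sq_le_sq _ (by positivity)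
    have e1 : (∑ a, g k a * r ^ wt u a) ^ 2 ≤ mot v p q c (curve u r) := by
      rw [← hM, hsq]
      have hk : (∑ a, g k a * r ^ wt u a) ^ 2
          ≤ ∑ k, (∑ a, g k a * monoVal a (curve u r)) ^ 2 := by
        have := Finset.single_le_sum (f := fun k => (∑ a, g k a * monoVal a (curve u r)) ^ 2)
          (fun k _ => sq_nonneg _) (Finset.mem_univ k)
        simpa only [monoVal_curve] using this
      linarith [hBpos (curve u r)]
    have e2 := hmot u r hr
    have e3 : (2 * r ^ max (wt u v) (max (wt u p) (wt u q))) ^ 2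
        = 4 * r ^ (2 * max (wt u v) (max (wt u p) (wt u q))) := by
      rw [mul_pow, ← pow_mul, mul_comm _ 2]; norm_num
    rw [e3]
    have e4 : 0 ≤ r ^ (2 * max (wt u v) (max (wt u p) (wt u q))) := by positivity
    linarith
  -- the coefficient of m_c²
  have hAc : pairSum A c = -3 := by
    have hz : (fun i => pairSum A i - ((if i = v then 1 else 0) + (if i = p then 1 else 0) +
        (if i = q then 1 else 0) - 3 * (if i = c then 1 else 0)) : Fin 21 → ℝ) = 0 := by
      have hinj : Function.Injective (fun i => 2 * wt ![0, 1, 6] i) := by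
        intro i j
        revert i j
        decide +kernel
      apply indep_pow _ hinj
      intro r
      have h1 := even_part A (curve ![0, 1, 6] r)
      rw [hM, hM, hM, hM, mot_fl2, mot_fl1, mot_fl2, mot_fl1] at h1
      have h2 : ∑ i, pairSum A i * monoVal i (curve ![0, 1, 6] r) ^ 2
          = mot v p q c (curve ![0, 1, 6] r) := by linarith
      unfold mot at h2
      simp only [monoVal_curve, ← pow_mul, mul_comm _ 2] at h2
      simp only [sub_mul, add_mul, Finset.sum_sub_distrib, Finset.sum_add_distrib, mul_assoc,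
        ← Finset.mul_sum]
      simp only [ite_mul, one_mul, zero_mul, Finset.sum_ite_eq', Finset.mem_univ, if_true]
      linarith
    have := congrFun hz c
    simp only [Pi.zero_apply] at this
    rw [if_neg hlt.2.2.1, if_neg (Ne.symm hlt.2.2.2.2.1), if_neg (Ne.symm hlt.2.2.2.2.2)] at this
    simp only [if_true] at this
    linarith
  have hsplit : pairSum A c = (∑ k, g k c * g k c) + pairSum B c := by
    have h1 : pairSum A c = (∑ a, ∑ b, if Mid a b c then ∑ k, g k a * g k b else 0)
        + pairSum B c := by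
      unfold pairSum
      rw [← Finset.sum_add_distrib]
      apply Finset.sum_congr rfl
      intro a _
      rw [← Finset.sum_add_distrib]
      apply Finset.sum_congr rfl
      intro b _
      rw [hAB a b]
      split_ifs <;> simp
    rw [h1]
    congr 1
    have hT : ∀ a b, ¬ (a = c ∧ b = c) → (if Mid a b c then ∑ k, g k a * g k b else 0) = 0 := by
      intro a b hab
      split_ifs with hm
      · apply Finset.sum_eq_zero
        intro k _
        by_cases ha : a = v ∨ a = p ∨ a = q ∨ a = c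
        · by_cases hb : b = v ∨ b = p ∨ b = q ∨ b = c
          · exact absurd (hcc a b ha hb hm) hab
          · push Not at hb
            rw [hg k b hb.1 hb.2.1 hb.2.2.1 hb.2.2.2, mul_zero]
        · push Not at ha
          rw [hg k a ha.1 ha.2.1 ha.2.2.1 ha.2.2.2, zero_mul]
      · rfl
    rw [Finset.sum_eq_single c, Finset.sum_eq_single c]
    · rw [if_pos]
      intro t
      ring
    · intro b _ hb
      exact hT c b (fun h => hb h.2)
    · simp
    · intro a _ ha
      apply Finset.sum_eq_zero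
      intro b _
      exact hT a b (fun h => ha h.1)
    · simp
  have hBc : pairSum B c ≤ -3 := by
    have : 0 ≤ ∑ k, g k c * g k c := Finset.sum_nonneg (fun k _ => mul_self_nonneg _)
    linarith
  -- bounds for the even part of `B`
  have hG0 : ∀ x, 0 ≤ ∑ i, pairSum B i * monoVal i x ^ 2 := by
    intro x
    have := even_part B x
    have h1 := hBpos x
    have h2 := hBpos (fl1 x)
    have h3 := hBpos (fl2 x)
    have h4 := hBpos (fl2 (fl1 x))
    linarith
  have hGle : ∀ x, ∑ i, pairSum B i * monoVal i x ^ 2 ≤ mot v p q c x := by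
    intro x
    have := even_part B x
    have hle : ∀ y, gq B y ≤ mot v p q c y := by
      intro y
      rw [← hM, hsq]
      have : 0 ≤ ∑ k, (∑ a, g k a * monoVal a y) ^ 2 := Finset.sum_nonneg (fun k _ => sq_nonneg _)
      linarith
    have h1 := hle x
    have h2 := hle (fl1 x)
    have h3 := hle (fl2 x)
    have h4 := hle (fl2 (fl1 x))
    rw [mot_fl1] at h2
    rw [mot_fl2] at h3
    rw [mot_fl2, mot_fl1] at h4
    linarith
  have hγ : ∀ i, i ≠ v → i ≠ p → i ≠ q → i ≠ c → pairSum B i = 0 := by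
    intro i h1 h2 h3 h4
    obtain ⟨u, hu, hs1, hs2, hs3⟩ := hsep i h1 h2 h3 h4
    have hinj : Function.Injective (fun i => 2 * wt u i) := by
      intro a b hab
      apply hw u hu
      simpa using hab
    apply growth (fun i => 2 * wt u i) hinj (pairSum B)
      (2 * max (wt u v) (max (wt u p) (wt u q))) 3 _ i
      (by omega)
    intro r hr
    have e1 := hG0 (curve u r)
    have e2 := hGle (curve u r)
    have e3 := hmot u r hr
    simp only [monoVal_curve, ← pow_mul, mul_comm _ 2] at e1 e2
    rw [abs_of_nonneg e1]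
    linarith
  have hγv : pairSum B v = 0 := by
    unfold pairSum
    apply Finset.sum_eq_zero
    intro k _
    apply Finset.sum_eq_zero
    intro l _
    split_ifs with hm
    · by_cases hk : k < v
      · by_cases hl : l < v
        · exact absurd hm (hvv k l hk hl)
        · have h1 : B l k = 0 := hsupp l k (by
            have : v.val ≤ l.val := by simpa using hl
            omega)
          exact (hB.apply l k).trans h1
      · exact hsupp k l (by
            have : v.val ≤ k.val := by simpa using hk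
            omega)
    · rfl
  -- evaluate along `u'`
  have hsum3 : ∀ x, ∑ i, pairSum B i * monoVal i x ^ 2
      = pairSum B p * monoVal p x ^ 2 + pairSum B q * monoVal q x ^ 2
        + pairSum B c * monoVal c x ^ 2 := by
    intro x
    have hsub : ({p, q, c} : Finset (Fin 21)) ⊆ Finset.univ := Finset.subset_univ _
    rw [← Finset.sum_subset hsub]
    · rw [Finset.sum_insert, Finset.sum_insert, Finset.sum_singleton]
      · ring
      · simp [hlt.2.2.2.2.2]
      · simp [hlt.2.2.2.1, hlt.2.2.2.2.1]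
    · intro i _ hi
      simp only [Finset.mem_insert, Finset.mem_singleton, not_or] at hi
      by_cases hiv : i = v
      · rw [hiv, hγv, zero_mul]
      · rw [hγ i hiv hi.1 hi.2.1 hi.2.2, zero_mul]
  refine final_contra (pairSum B p) (pairSum B q) (pairSum B c) (wt u' p) (wt u' q) (wt u' c)
    hBc hu'.1 hu'.2 ?_
  intro r _
  have hfin := hG0 (curve u' r)
  rw [hsum3] at hfin
  simp only [monoVal_curve, ← pow_mul, mul_comm _ 2] at hfin
  exact hfin

end Pool.Agent.NH61.Decic
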